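import Mathlib

/-!
# PFS squad (MP_e54c4c_gt): definitions and basic facts on open salient cones
-/

set_option autoImplicit false

open Matrix Filter Topology

namespace Pool.Agent.PFS

variable {n : ℕ}

/-- the action of a matrix group element on vectors -/
abbrev act (g : GL (Fin n) ℝ) (x : Fin n → ℝ) : Fin n → ℝ :=
  (g : Matrix (Fin n) (Fin n) ℝ) *ᵥ x

/-- the full orbital limit set, as a set of unit vectors (verbatim as in S14139) -/
def Lam (C : Set (Fin n → ℝ)) (Γ : Subgroup (GL (Fin n) ℝ)) : Set (Fin n → ℝ) :=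
  {u : Fin n → ℝ | ‖u‖ = 1 ∧ u ∈ closure C ∧ u ∉ C ∧ ∃ x ∈ C,
    u ∈ closure {z : Fin n → ℝ | ∃ g ∈ Γ,
      z = ‖(g : Matrix (Fin n) (Fin n) ℝ) *ᵥ x‖⁻¹ • ((g : Matrix (Fin n) (Fin n) ℝ) *ᵥ x)}}

/-- the cone over the limit set, without 0 -/
def LamC (C : Set (Fin n → ℝ)) (Γ : Subgroup (GL (Fin n) ℝ)) : Set (Fin n → ℝ) :=
  {x | ∃ t : ℝ, 0 < t ∧ ∃ u ∈ Lam C Γ, x = t • u}

/-- the cone over the convex hull of the limit set; the convex core is `C ∩ Hull C Γ` -/
def Hull (C : Set (Fin n → ℝ)) (Γ : Subgroup (GL (Fin n) ℝ)) : Set (Fin n → ℝ) :=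
  {y | ∃ t : ℝ, 0 < t ∧ ∃ w ∈ convexHull ℝ (Lam C Γ), y = t • w}

/-- open salient (properly convex) cone -/
structure PCone (C : Set (Fin n → ℝ)) : Prop where
  isOpen : IsOpen C
  convex : Convex ℝ C
  nonempty : C.Nonempty
  zero : (0 : Fin n → ℝ) ∉ C
  smul : ∀ x ∈ C, ∀ t : ℝ, 0 < t → t • x ∈ C
  salient : ∀ v : Fin n → ℝ, v ∈ closure C → -v ∈ closure C → v = 0

/-- `Γ` acts convex cocompactly on the domain of the cone `C` (the hypotheses of S14139) -/
structure CC (C : Set (Fin n → ℝ)) (Γ : Subgroup (GL (Fin n) ℝ)) : Prop extends PCone C where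
  disc : DiscreteTopology Γ
  det : ∀ g ∈ Γ, |Matrix.det (g : Matrix (Fin n) (Fin n) ℝ)| = 1
  mem : ∀ g ∈ Γ, ∀ x ∈ C, act g x ∈ C
  core : ∃ y ∈ C, y ∈ Hull C Γ
  cocompact : ∃ K : Set (Fin n → ℝ), IsCompact K ∧ K ⊆ C ∧
    ∀ y ∈ C, y ∈ Hull C Γ → ∃ g ∈ Γ, ∃ t : ℝ, 0 < t ∧ t • act g y ∈ K

/-- the open simplicial cone spanned by `w` -/
def PosCone {ι : Type} [Fintype ι] (w : ι → (Fin n → ℝ)) : Set (Fin n → ℝ) :=
  {y | ∃ c : ι → ℝ, (∀ i, 0 < c i) ∧ y = ∑ i, c i • w i}

/-- `w` is (the vertex family of) a properly embedded simplex of the domain of `C` -/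
structure PES {ι : Type} [Fintype ι] (C : Set (Fin n → ℝ)) (w : ι → (Fin n → ℝ)) : Prop where
  pos : ∀ c : ι → ℝ, (∀ i, 0 < c i) → ∑ i, c i • w i ∈ C
  bd : ∀ c : ι → ℝ, (∀ i, 0 ≤ c i) → (∃ i, c i = 0) → ∑ i, c i • w i ∉ C

/-- properly embedded simplex with vertices in the limit cone -/
def IsPES {ι : Type} [Fintype ι] (C : Set (Fin n → ℝ)) (Γ : Subgroup (GL (Fin n) ℝ))
    (w : ι → (Fin n → ℝ)) : Prop :=
  PES C w ∧ ∀ i, w i ∈ LamC C Γ

/-- every properly embedded simplex with vertices in the limit cone has at most `K` vertices -/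
def MaxCard (C : Set (Fin n → ℝ)) (Γ : Subgroup (GL (Fin n) ℝ)) (K : ℕ) : Prop :=
  ∀ (m : ℕ) (w : Fin m → (Fin n → ℝ)), IsPES C Γ w → m ≤ K

/-- the open face of `x` in the closed cone -/
def Face (C : Set (Fin n → ℝ)) (x : Fin n → ℝ) : Set (Fin n → ℝ) :=
  {y | ∃ ε : ℝ, 0 < ε ∧ x - ε • y ∈ closure C ∧ y - ε • x ∈ closure C}

/-- every open face of the domain that meets the limit set is an open simplex -/
def SimpFaces (C : Set (Fin n → ℝ)) (Γ : Subgroup (GL (Fin n) ℝ)) : Prop :=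
  ∀ x ∈ LamC C Γ, ∃ (r : ℕ) (y : Fin r → (Fin n → ℝ)),
    LinearIndependent ℝ y ∧ Face C x = PosCone y

/-- `p` is at Hilbert distance at most `log M` (one-sided normalisation) from the simplex `w` -/
def Near {ι : Type} [Fintype ι] (C : Set (Fin n → ℝ)) (M : ℝ) (w : ι → (Fin n → ℝ))
    (p : Fin n → ℝ) : Prop :=
  ∃ c : ι → ℝ, (∀ i, 0 < c i) ∧ (∑ i, c i • w i) - p ∈ closure C ∧
    M • p - (∑ i, c i • w i) ∈ closure C

/-- the point with integer exponents `u` of the simplex `w` -/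
noncomputable def pt {ι : Type} [Fintype ι] (w : ι → (Fin n → ℝ)) (u : ι → ℤ) : Fin n → ℝ :=
  ∑ i, (2 : ℝ) ^ (u i) • w i

/-- the two simplices are equal (same vertices up to order and positive scaling) -/
def Same {K : ℕ} (w w' : Fin K → (Fin n → ℝ)) : Prop :=
  ∃ (σ : Equiv.Perm (Fin K)) (c : Fin K → ℝ), (∀ i, 0 < c i) ∧ ∀ i, w i = c i • w' (σ i)

/-! ## basic facts -/

namespace PCone

variable {C : Set (Fin n → ℝ)} (h : PCone C)
include h

theorem add_cl {x y : Fin n → ℝ} (hx : x ∈ C) (hy : y ∈ closure C) : x + y ∈ C := by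
  have h1 : (1/2 : ℝ) • x + (1/2 : ℝ) • y ∈ interior C :=
    h.convex.combo_interior_closure_mem_interior (by rwa [h.isOpen.interior_eq]) hy
      (by norm_num) (by norm_num) (by norm_num)
  rw [h.isOpen.interior_eq] at h1
  have h2 := h.smul _ h1 2 (by norm_num)
  have h3 : (2 : ℝ) • ((1/2 : ℝ) • x + (1/2 : ℝ) • y) = x + y := by
    rw [smul_add, smul_smul, smul_smul]; norm_num
  rwa [h3] at h2

theorem cl_add' {x y : Fin n → ℝ} (hx : x ∈ closure C) (hy : y ∈ C) : x + y ∈ C := by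
  rw [add_comm]; exact h.add_cl hy hx

theorem cl_smul_pos {x : Fin n → ℝ} (hx : x ∈ closure C) {t : ℝ} (ht : 0 < t) :
    t • x ∈ closure C := by
  have hc : Continuous (fun z : Fin n → ℝ => t • z) := by fun_prop
  have := image_closure_subset_closure_image hc (s := C) ⟨x, hx, rfl⟩
  refine closure_mono ?_ this
  rintro _ ⟨z, hz, rfl⟩
  exact h.smul z hz t ht

theorem zero_cl : (0 : Fin n → ℝ) ∈ closure C := by
  obtain ⟨x, hx⟩ := h.nonempty
  have ht : Tendsto (fun m : ℕ => (1 / ((m : ℝ) + 1)) • x) atTop (𝓝 ((0 : ℝ) • x)) :=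
    tendsto_one_div_add_atTop_nhds_zero_nat.smul_const x
  rw [zero_smul] at ht
  exact mem_closure_of_tendsto ht (Eventually.of_forall fun m => h.smul x hx _ (by positivity))

theorem cl_smul {x : Fin n → ℝ} (hx : x ∈ closure C) {t : ℝ} (ht : 0 ≤ t) :
    t • x ∈ closure C := by
  rcases ht.eq_or_lt with h0 | h0
  · rw [← h0, zero_smul]; exact h.zero_cl
  · exact h.cl_smul_pos hx h0

theorem cl_add {x y : Fin n → ℝ} (hx : x ∈ closure C) (hy : y ∈ closure C) :
    x + y ∈ closure C := by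
  have h1 : (1/2 : ℝ) • x + (1/2 : ℝ) • y ∈ closure C :=
    h.convex.closure hx hy (by norm_num) (by norm_num) (by norm_num)
  have h2 := h.cl_smul h1 (t := 2) (by norm_num)
  have h3 : (2 : ℝ) • ((1/2 : ℝ) • x + (1/2 : ℝ) • y) = x + y := by
    rw [smul_add, smul_smul, smul_smul]; norm_num
  rwa [h3] at h2

theorem cl_sum {ι : Type} {s : Finset ι} {f : ι → (Fin n → ℝ)}
    (hf : ∀ i ∈ s, f i ∈ closure C) : ∑ i ∈ s, f i ∈ closure C := by
  classical
  induction s using Finset.induction_on with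
  | empty => simpa using h.zero_cl
  | insert a s ha ih =>
    rw [Finset.sum_insert ha]
    exact h.cl_add (hf a (Finset.mem_insert_self a s))
      (ih fun i hi => hf i (Finset.mem_insert_of_mem hi))

/-- transitivity of the order -/
theorem le_trans {x y z : Fin n → ℝ} (hxy : y - x ∈ closure C) (hyz : z - y ∈ closure C) :
    z - x ∈ closure C := by
  have := h.cl_add hxy hyz
  have h3 : y - x + (z - y) = z - x := by abel
  rwa [h3] at this

/-- `C` is upward closed -/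
theorem mem_of_le {x y : Fin n → ℝ} (hx : x ∈ C) (hxy : y - x ∈ closure C) : y ∈ C := by
  have := h.add_cl hx hxy
  have h3 : x + (y - x) = y := by abel
  rwa [h3] at this

theorem cl_of_le {x y : Fin n → ℝ} (hx : x ∈ closure C) (hxy : y - x ∈ closure C) :
    y ∈ closure C := by
  have := h.cl_add hx hxy
  have h3 : x + (y - x) = y := by abel
  rwa [h3] at this

theorem smul_iff {x : Fin n → ℝ} {t : ℝ} (ht : 0 < t) : t • x ∈ C ↔ x ∈ C := by
  constructor
  · intro hx
    have := h.smul _ hx t⁻¹ (inv_pos.mpr ht)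
    rwa [smul_smul, inv_mul_cancel₀ ht.ne', one_smul] at this
  · intro hx; exact h.smul x hx t ht

theorem cl_smul_iff {x : Fin n → ℝ} {t : ℝ} (ht : 0 < t) : t • x ∈ closure C ↔ x ∈ closure C := by
  constructor
  · intro hx
    have := h.cl_smul hx (inv_pos.mpr ht).le
    rwa [smul_smul, inv_mul_cancel₀ ht.ne', one_smul] at this
  · intro hx; exact h.cl_smul hx ht.le

/-- the cone is normal: order intervals are bounded -/
theorem normal : ∃ B : ℝ, 0 < B ∧ ∀ x y : Fin n → ℝ, x ∈ closure C → y - x ∈ closure C →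
    ‖x‖ ≤ B * ‖y‖ := by
  classical
  let S : Set ((Fin n → ℝ) × (Fin n → ℝ)) :=
    {q | q.1 ∈ closure C ∧ q.2 ∈ closure C ∧ ‖q.1‖ + ‖q.2‖ = 1}
  have hScl : IsClosed S := by
    have h1 : IsClosed {q : (Fin n → ℝ) × (Fin n → ℝ) | q.1 ∈ closure C} :=
      isClosed_closure.preimage continuous_fst
    have h2 : IsClosed {q : (Fin n → ℝ) × (Fin n → ℝ) | q.2 ∈ closure C} :=
      isClosed_closure.preimage continuous_snd
    have h3 : IsClosed {q : (Fin n → ℝ) × (Fin n → ℝ) | ‖q.1‖ + ‖q.2‖ = 1} :=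
      isClosed_eq (by fun_prop) continuous_const
    exact h1.inter (h2.inter h3)
  have hSb : S ⊆ Metric.closedBall 0 1 := by
    rintro ⟨a, b⟩ ⟨_, _, hab⟩
    simp only [Metric.mem_closedBall, dist_zero_right]
    change max ‖a‖ ‖b‖ ≤ 1
    have := norm_nonneg a
    have := norm_nonneg b
    simp only at hab
    exact max_le (by linarith) (by linarith)
  have hSc : IsCompact S := (isCompact_closedBall (0 : (Fin n → ℝ) × (Fin n → ℝ)) 1).of_isClosed_subset hScl hSb
  have key : ∃ c : ℝ, 0 < c ∧ ∀ q ∈ S, c ≤ ‖q.1 + q.2‖ := by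
    rcases S.eq_empty_or_nonempty with hE | hN
    · exact ⟨1, one_pos, by rw [hE]; simp⟩
    · obtain ⟨q0, hq0, hmin⟩ := hSc.exists_isMinOn hN
        (f := fun q : (Fin n → ℝ) × (Fin n → ℝ) => ‖q.1 + q.2‖) (by fun_prop)
      refine ⟨‖q0.1 + q0.2‖, ?_, fun q hq => hmin hq⟩
      rw [norm_pos_iff]
      intro h0
      have h2 : q0.2 = -q0.1 := by
        rw [add_comm] at h0; exact eq_neg_of_add_eq_zero_left h0
      have h1 : q0.1 = 0 := h.salient _ hq0.1 (by rw [← h2]; exact hq0.2.1)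
      have h3 := hq0.2.2
      rw [h2, h1] at h3
      simp at h3
  obtain ⟨c, hc, hcS⟩ := key
  refine ⟨c⁻¹, inv_pos.mpr hc, ?_⟩
  intro x y hx hxy
  by_cases hx0 : x = 0
  · rw [hx0, norm_zero]; positivity
  have hxp : 0 < ‖x‖ := norm_pos_iff.mpr hx0
  set s := ‖x‖ + ‖y - x‖ with hs
  have hsp : 0 < s := by have := norm_nonneg (y - x); linarith
  have hmem : ((s⁻¹ • x, s⁻¹ • (y - x)) : (Fin n → ℝ) × (Fin n → ℝ)) ∈ S := by
    refine ⟨h.cl_smul hx (inv_pos.mpr hsp).le, h.cl_smul hxy (inv_pos.mpr hsp).le, ?_⟩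
    simp only
    rw [norm_smul, norm_smul, Real.norm_of_nonneg (inv_pos.mpr hsp).le, ← mul_add, ← hs,
      inv_mul_cancel₀ hsp.ne']
  have h1 := hcS _ hmem
  simp only at h1
  rw [← smul_add, norm_smul, Real.norm_of_nonneg (inv_pos.mpr hsp).le] at h1
  have h2 : x + (y - x) = y := by abel
  rw [h2] at h1
  have h3 : c * s ≤ ‖y‖ := by
    have := mul_le_mul_of_nonneg_left h1 hsp.le
    rw [← mul_assoc, mul_inv_cancel₀ hsp.ne', one_mul] at this
    linarith
  have h4 : ‖x‖ ≤ s := by have := norm_nonneg (y - x); linarith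
  rw [inv_mul_eq_div, le_div_iff₀ hc]
  nlinarith

/-- every vector is below a multiple of a point of `C` -/
theorem absorb {p : Fin n → ℝ} (hp : p ∈ C) (v : Fin n → ℝ) :
    ∃ M : ℝ, 0 < M ∧ M • p - v ∈ C := by
  have ht : Tendsto (fun m : ℕ => p - (1 / ((m : ℝ) + 1)) • v) atTop (𝓝 (p - (0 : ℝ) • v)) :=
    tendsto_const_nhds.sub (tendsto_one_div_add_atTop_nhds_zero_nat.smul_const v)
  rw [zero_smul, sub_zero] at ht
  obtain ⟨m, hm⟩ := (ht.eventually (h.isOpen.mem_nhds hp)).exists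
  refine ⟨(m : ℝ) + 1, by positivity, ?_⟩
  have := h.smul _ hm ((m : ℝ) + 1) (by positivity)
  rwa [smul_sub, smul_smul, mul_one_div_cancel (by positivity), one_smul] at this

/-- points converging to `p ∈ C` are eventually squeezed by multiples of `p` -/
theorem squeeze {ι : Type} {l : Filter ι} {f : ι → (Fin n → ℝ)} {p : Fin n → ℝ} (hp : p ∈ C)
    (hf : Tendsto f l (𝓝 p)) {M : ℝ} (hM : 1 < M) :
    ∀ᶠ m in l, M • p - f m ∈ C ∧ M • f m - p ∈ C := by
  have h1 : Tendsto (fun m => M • p - f m) l (𝓝 (M • p - p)) := tendsto_const_nhds.sub hf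
  have h2 : Tendsto (fun m => M • f m - p) l (𝓝 (M • p - p)) :=
    (hf.const_smul M).sub tendsto_const_nhds
  have h3 : M • p - p ∈ C := by
    have h4 : M • p - p = (M - 1) • p := by rw [sub_smul, one_smul]
    rw [h4]; exact h.smul p hp _ (by linarith)
  exact (h1.eventually (h.isOpen.mem_nhds h3)).and (h2.eventually (h.isOpen.mem_nhds h3))

theorem ne_zero {x : Fin n → ℝ} (hx : x ∈ C) : x ≠ 0 := by
  intro h0; exact h.zero (h0 ▸ hx)

end PCone

namespace CC

variable {C : Set (Fin n → ℝ)} {Γ : Subgroup (GL (Fin n) ℝ)} (h : CC C Γ)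
include h

omit h in
theorem act_mul (g g' : GL (Fin n) ℝ) (x : Fin n → ℝ) : act (g * g') x = act g (act g' x) := by
  simp [act, Matrix.mulVec_mulVec]

omit h in
theorem act_one (x : Fin n → ℝ) : act (1 : GL (Fin n) ℝ) x = x := by
  simp [act]

omit h in
theorem act_inv_act (g : GL (Fin n) ℝ) (x : Fin n → ℝ) : act g⁻¹ (act g x) = x := by
  rw [← act_mul, inv_mul_cancel, act_one]

omit h in
theorem act_act_inv (g : GL (Fin n) ℝ) (x : Fin n → ℝ) : act g (act g⁻¹ x) = x := by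
  rw [← act_mul, mul_inv_cancel, act_one]

omit h in
theorem act_continuous (g : GL (Fin n) ℝ) : Continuous (act g) := by
  unfold act
  exact Continuous.matrix_mulVec continuous_const continuous_id

omit h in
theorem act_smul (g : GL (Fin n) ℝ) (t : ℝ) (x : Fin n → ℝ) : act g (t • x) = t • act g x := by
  simp [act, Matrix.mulVec_smul]

omit h in
theorem act_add (g : GL (Fin n) ℝ) (x y : Fin n → ℝ) : act g (x + y) = act g x + act g y := by
  simp [act, Matrix.mulVec_add]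

omit h in
theorem act_sub (g : GL (Fin n) ℝ) (x y : Fin n → ℝ) : act g (x - y) = act g x - act g y := by
  simp [act, Matrix.mulVec_sub]

omit h in
theorem act_sum {ι : Type} (s : Finset ι) (g : GL (Fin n) ℝ) (f : ι → (Fin n → ℝ)) :
    act g (∑ i ∈ s, f i) = ∑ i ∈ s, act g (f i) := by
  simp only [act, Matrix.mulVec_sum]

omit h in
theorem act_zero (g : GL (Fin n) ℝ) : act g (0 : Fin n → ℝ) = 0 := by
  simp [act]

omit h in
theorem act_injective (g : GL (Fin n) ℝ) : Function.Injective (act g) := by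
  intro x y hxy
  have := congrArg (act g⁻¹) hxy
  rwa [act_inv_act, act_inv_act] at this

theorem act_mem_iff {g : GL (Fin n) ℝ} (hg : g ∈ Γ) {x : Fin n → ℝ} : act g x ∈ C ↔ x ∈ C := by
  constructor
  · intro hx
    have := h.mem g⁻¹ (Γ.inv_mem hg) _ hx
    rwa [act_inv_act] at this
  · exact h.mem g hg x

theorem act_cl {g : GL (Fin n) ℝ} (hg : g ∈ Γ) {x : Fin n → ℝ} (hx : x ∈ closure C) :
    act g x ∈ closure C := by
  have := image_closure_subset_closure_image (act_continuous g) (s := C) ⟨x, hx, rfl⟩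
  refine closure_mono ?_ this
  rintro _ ⟨z, hz, rfl⟩
  exact h.mem g hg z hz

theorem act_cl_iff {g : GL (Fin n) ℝ} (hg : g ∈ Γ) {x : Fin n → ℝ} :
    act g x ∈ closure C ↔ x ∈ closure C := by
  constructor
  · intro hx
    have := h.act_cl (Γ.inv_mem hg) hx
    rwa [act_inv_act] at this
  · exact h.act_cl hg

/-- scaled version: `G = s • g` preserves `C` and its closure -/
theorem sact_mem_iff {g : GL (Fin n) ℝ} (hg : g ∈ Γ) {s : ℝ} (hs : 0 < s) {x : Fin n → ℝ} :
    s • act g x ∈ C ↔ x ∈ C := by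
  rw [h.smul_iff hs, h.act_mem_iff hg]

theorem sact_cl_iff {g : GL (Fin n) ℝ} (hg : g ∈ Γ) {s : ℝ} (hs : 0 < s) {x : Fin n → ℝ} :
    s • act g x ∈ closure C ↔ x ∈ closure C := by
  rw [h.cl_smul_iff hs, h.act_cl_iff hg]

end CC

end Pool.Agent.PFS
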