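import Pool.Agent.PFS.Defs

/-!
# PFS squad: basic facts on the limit cone and on the cone over the convex hull of the limit set
-/

set_option autoImplicit false

open Matrix Filter Topology

namespace Pool.Agent.PFS

variable {n : ℕ}

/-- basic facts on `LamC` and `Hull` -/
structure HulFacts (C : Set (Fin n → ℝ)) (Γ : Subgroup (GL (Fin n) ℝ)) : Prop where
  add : ∀ x ∈ Hull C Γ, ∀ y ∈ Hull C Γ, x + y ∈ Hull C Γ
  smul : ∀ x ∈ Hull C Γ, ∀ t : ℝ, 0 < t → t • x ∈ Hull C Γ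
  act : ∀ x ∈ Hull C Γ, ∀ g ∈ Γ, act g x ∈ Hull C Γ
  lamAct : ∀ x ∈ LamC C Γ, ∀ g ∈ Γ, PFS.act g x ∈ LamC C Γ
  lamSmul : ∀ x ∈ LamC C Γ, ∀ t : ℝ, 0 < t → t • x ∈ LamC C Γ
  lamHull : ∀ x ∈ LamC C Γ, x ∈ Hull C Γ
  hullCl : ∀ x ∈ Hull C Γ, x ∈ closure C
  lamCl : ∀ x ∈ LamC C Γ, x ∈ closure C
  lamNot : ∀ x ∈ LamC C Γ, x ∉ C
  lamNe : ∀ x ∈ LamC C Γ, x ≠ 0

theorem lam_act {C : Set (Fin n → ℝ)} {Γ : Subgroup (GL (Fin n) ℝ)} (h : CC C Γ)
    {u : Fin n → ℝ} (hu : u ∈ Lam C Γ) {g : GL (Fin n) ℝ} (hg : g ∈ Γ) :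
    ‖act g u‖⁻¹ • act g u ∈ Lam C Γ ∧ 0 < ‖act g u‖ := by
  obtain ⟨hu1, hucl, hunot, x, hx, hux⟩ := hu
  have hu0 : u ≠ 0 := by intro h0; rw [h0, norm_zero] at hu1; exact zero_ne_one hu1
  have hgu0 : act g u ≠ 0 := by
    intro h0
    have := CC.act_injective g (h0.trans (CC.act_zero g).symm)
    exact hu0 this
  have hpos : 0 < ‖act g u‖ := norm_pos_iff.mpr hgu0
  refine ⟨⟨?_, ?_, ?_, x, hx, ?_⟩, hpos⟩
  · rw [norm_smul, norm_inv, norm_norm, inv_mul_cancel₀ hpos.ne']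
  · exact h.cl_smul (h.act_cl hg hucl) (inv_pos.mpr hpos).le
  · rw [h.smul_iff (inv_pos.mpr hpos), h.act_mem_iff hg]; exact hunot
  · -- continuity
    rw [mem_closure_iff_seq_limit] at hux ⊢
    obtain ⟨z, hz, hzlim⟩ := hux
    have hcont : Tendsto (fun m => ‖act g (z m)‖⁻¹ • act g (z m)) atTop
        (𝓝 (‖act g u‖⁻¹ • act g u)) := by
      have h1 : Tendsto (fun m => act g (z m)) atTop (𝓝 (act g u)) :=
        ((CC.act_continuous g).tendsto u).comp hzlim
      exact (h1.norm.inv₀ hpos.ne').smul h1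
    refine ⟨fun m => ‖act g (z m)‖⁻¹ • act g (z m), ?_, hcont⟩
    intro m
    obtain ⟨g', hg', hzm⟩ := hz m
    refine ⟨g * g', Γ.mul_mem hg hg', ?_⟩
    have hx0 : act g' x ≠ 0 := (h.ne_zero ((h.act_mem_iff hg').mpr hx))
    have hxp : 0 < ‖act g' x‖ := norm_pos_iff.mpr hx0
    have e1 : act g (z m) = ‖act g' x‖⁻¹ • act g (act g' x) := by
      rw [hzm]; exact CC.act_smul g _ _
    have e2 : (((g * g' : GL (Fin n) ℝ)) : Matrix (Fin n) (Fin n) ℝ) *ᵥ x
        = act g (act g' x) := CC.act_mul g g' x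
    rw [e2]
    simp only [e1]
    have hgx0 : act g (act g' x) ≠ 0 :=
      (h.ne_zero ((h.act_mem_iff hg).mpr ((h.act_mem_iff hg').mpr hx)))
    have hgxp : 0 < ‖act g (act g' x)‖ := norm_pos_iff.mpr hgx0
    rw [norm_smul, norm_inv, norm_norm, mul_inv, inv_inv, smul_smul]
    congr 1
    field_simp

theorem CC.hul {C : Set (Fin n → ℝ)} {Γ : Subgroup (GL (Fin n) ℝ)} (h : CC C Γ) :
    HulFacts C Γ := by
  have hlamsmul : ∀ x ∈ LamC C Γ, ∀ t : ℝ, 0 < t → t • x ∈ LamC C Γ := by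
    rintro x ⟨s, hs, u, hu, rfl⟩ t ht
    exact ⟨t * s, by positivity, u, hu, by rw [smul_smul]⟩
  have hsmul : ∀ x ∈ Hull C Γ, ∀ t : ℝ, 0 < t → t • x ∈ Hull C Γ := by
    rintro x ⟨s, hs, u, hu, rfl⟩ t ht
    exact ⟨t * s, by positivity, u, hu, by rw [smul_smul]⟩
  have hadd : ∀ x ∈ Hull C Γ, ∀ y ∈ Hull C Γ, x + y ∈ Hull C Γ := by
    rintro x ⟨s, hs, u, hu, rfl⟩ y ⟨t, ht, v, hv, rfl⟩
    refine ⟨s + t, by positivity, (s / (s + t)) • u + (t / (s + t)) • v, ?_, ?_⟩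
    · exact convex_convexHull ℝ _ hu hv (by positivity) (by positivity) (by field_simp)
    · rw [smul_add, smul_smul, smul_smul, mul_div_cancel₀ _ (by positivity),
        mul_div_cancel₀ _ (by positivity)]
  have hlh : ∀ x ∈ LamC C Γ, x ∈ Hull C Γ := by
    rintro x ⟨s, hs, u, hu, rfl⟩
    exact ⟨s, hs, u, subset_convexHull ℝ _ hu, rfl⟩
  have hconv : Convex ℝ (Hull C Γ) := by
    rw [convex_iff_forall_pos]
    intro x hx y hy a b ha hb _
    exact hadd _ (hsmul _ hx a ha) _ (hsmul _ hy b hb)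
  have hlamact : ∀ x ∈ LamC C Γ, ∀ g ∈ Γ, PFS.act g x ∈ LamC C Γ := by
    rintro x ⟨s, hs, u, hu, rfl⟩ g hg
    obtain ⟨h1, h2⟩ := lam_act h hu hg
    refine ⟨s * ‖act g u‖, by positivity, _, h1, ?_⟩
    rw [CC.act_smul, smul_smul, mul_assoc, mul_inv_cancel₀ h2.ne', mul_one]
  have hact : ∀ x ∈ Hull C Γ, ∀ g ∈ Γ, PFS.act g x ∈ Hull C Γ := by
    rintro x ⟨s, hs, u, hu, rfl⟩ g hg
    rw [CC.act_smul]
    refine hsmul _ ?_ s hs
    -- preimage of Hull under g is convex and contains Lam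
    have hsub : Lam C Γ ⊆ {z | PFS.act g z ∈ Hull C Γ} := by
      intro z hz
      have : z ∈ LamC C Γ := ⟨1, one_pos, z, hz, (one_smul ℝ z).symm⟩
      exact hlh _ (hlamact z this g hg)
    have hcv : Convex ℝ {z | PFS.act g z ∈ Hull C Γ} := by
      intro a ha b hb p q hp hq hpq
      change PFS.act g (p • a + q • b) ∈ Hull C Γ
      rw [CC.act_add, CC.act_smul, CC.act_smul]
      exact hconv ha hb hp hq hpq
    exact convexHull_min hsub hcv hu
  have hcl : ∀ x ∈ Hull C Γ, x ∈ closure C := by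
    rintro x ⟨s, hs, u, hu, rfl⟩
    refine h.cl_smul ?_ hs.le
    exact convexHull_min (fun z hz => hz.2.1) h.convex.closure hu
  exact
    { add := hadd
      smul := hsmul
      act := hact
      lamAct := hlamact
      lamSmul := hlamsmul
      lamHull := hlh
      hullCl := hcl
      lamCl := fun x hx => hcl x (hlh x hx)
      lamNot := by
        rintro x ⟨s, hs, u, hu, rfl⟩
        rw [h.smul_iff hs]; exact hu.2.2.1
      lamNe := by
        rintro x ⟨s, hs, u, hu, rfl⟩ h0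
        have h1 := hu.1
        rcases smul_eq_zero.mp h0 with h2 | h2
        · exact hs.ne' h2
        · rw [h2, norm_zero] at h1; exact zero_ne_one h1 }

/-- the vertices of a properly embedded simplex are in the closed cone -/
theorem PES.cl {C : Set (Fin n → ℝ)} {ι : Type} [Fintype ι] {w : ι → (Fin n → ℝ)}
    (hw : PES C w) (i : ι) : w i ∈ closure C := by
  classical
  have hlim : Tendsto (fun m : ℕ => ∑ j, (if j = i then (1 : ℝ) else 1 / ((m : ℝ) + 1)) • w j)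
      atTop (𝓝 (∑ j, (if j = i then (1 : ℝ) else 0) • w j)) := by
    refine tendsto_finsetSum _ fun j _ => ?_
    by_cases hj : j = i
    · simp only [hj, if_true]; exact tendsto_const_nhds
    · simp only [hj, if_false]
      exact tendsto_one_div_add_atTop_nhds_zero_nat.smul_const (w j)
  have he : ∑ j, (if j = i then (1 : ℝ) else 0) • w j = w i := by
    simp
  rw [he] at hlim
  refine mem_closure_of_tendsto hlim (Eventually.of_forall fun m => hw.pos _ fun j => ?_)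
  split_ifs <;> positivity

theorem PES.sum_mem {C : Set (Fin n → ℝ)} {ι : Type} [Fintype ι] {w : ι → (Fin n → ℝ)}
    (hw : PES C w) : ∑ i, w i ∈ C := by
  have := hw.pos (fun _ => 1) fun _ => one_pos
  simpa using this

theorem PES.pt_mem {C : Set (Fin n → ℝ)} {ι : Type} [Fintype ι] {w : ι → (Fin n → ℝ)}
    (hw : PES C w) (u : ι → ℤ) : pt w u ∈ C :=
  hw.pos _ fun _ => by positivity

end Pool.Agent.PFS
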