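import Pool.Agent.PFS.Hul

/-!
# PFS squad (MP_e54c4c_gt): statements of all rows, with complete proofs in words

Theorem to be proved (row FIN).  Let the discrete group `Γ` act convex cocompactly on the properly
convex domain `Ω` of the open salient cone `C`, suppose that the core contains a properly embedded
triangle (by Danciger-Gueritaud-Kassel: `Γ` is not word hyperbolic) and that every open face of `Ω`
meeting the full orbital limit set is an open simplex.  Let `k + 1` be the maximal number of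
vertices of a properly embedded simplex with vertices in the limit set.  Then every such
`k`-simplex is a maximal properly embedded simplex of `Ω`, the family of these simplices is
discrete, and every one of them is preserved by a subgroup of `Γ` isomorphic to `ℤ^k`.

Conventions.  `x ≤ y` means `y - x ∈ closure C`.  `LamC` = cone over the limit set (without `0`),
`Hull` = cone over its convex hull, the core is `C ∩ Hull`.  Zooming at `p_m` means choosing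
`g_m ∈ Γ`, `s_m > 0` with `s_m g_m p_m` convergent in `C` (row ZOM, cocompactness).
The scaled maps `G = s • act g` preserve `C`, `closure C`, `Hull`, `LamC`.
All files `Defs.lean` and `Hul.lean` are proved and may be used freely
(`PCone.add_cl`, `PCone.mem_of_le`, `PCone.normal`, `PCone.squeeze`, `PCone.absorb`, `CC.hul`, ...).
-/

set_option autoImplicit false

open Matrix Filter Topology

namespace Pool.Agent.PFS

/-- the vector space -/
abbrev V (n : ℕ) : Type := Fin n → ℝ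

/-! ## A. Limits -/

/-- **Row LIM0.**  If `g_m ∈ Γ`, `s_m > 0`, `s_m g_m y_m → q ∈ C` and `y_m → y0`, where
`y0 ∈ closure C`, `y0 ∉ C`, `y0 ≠ 0`, then `y0 ∈ LamC`.

Proof.  Put `z_m = s_m⁻¹ g_m⁻¹ q`.  Let `M > 1`.  By `PCone.squeeze` eventually
`M q - s_m g_m y_m ∈ C` and `M s_m g_m y_m - q ∈ C`; apply `s_m⁻¹ g_m⁻¹` :
`M z_m - y_m ∈ closure C` and `M y_m - z_m ∈ closure C`.  So `0 ≤ z_m - M⁻¹ y_m ≤ (M - M⁻¹) y_m`
and by `PCone.normal` `‖z_m - M⁻¹ y_m‖ ≤ B (M - M⁻¹) ‖y_m‖`.  As `M → 1` this gives `z_m → y0`.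
Hence `‖z_m‖⁻¹ z_m → ‖y0‖⁻¹ y0`, and `‖z_m‖⁻¹ z_m = ‖g_m⁻¹ q‖⁻¹ g_m⁻¹ q` lies in the orbit set of
`q ∈ C` in the definition of `Lam`.  So `‖y0‖⁻¹ y0 ∈ Lam` and `y0 = ‖y0‖ (‖y0‖⁻¹ y0) ∈ LamC`. -/
def Lim0Stmt : Prop :=
  ∀ (n : ℕ) (C : Set (V n)) (Γ : Subgroup (GL (Fin n) ℝ)), CC C Γ →
    ∀ (g : ℕ → GL (Fin n) ℝ) (s : ℕ → ℝ) (y : ℕ → V n) (q y0 : V n),
      (∀ m, g m ∈ Γ) → (∀ m, 0 < s m) → q ∈ C →
      Tendsto (fun m => s m • act (g m) (y m)) atTop (𝓝 q) →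
      Tendsto y atTop (𝓝 y0) → y0 ∈ closure C → y0 ∉ C → y0 ≠ 0 → y0 ∈ LamC C Γ

/-- **Row ZOM** (zooming).  For core points `p_m` there are a subsequence `φ`, `g_m ∈ Γ`,
`s_m > 0` with `s_m g_m p_{φ m} → q ∈ C`.

Proof.  `CC.cocompact` gives `g'_m`, `t_m` with `t_m g'_m p_m ∈ K`; `K` compact in `C`;
`IsCompact.tendsto_subseq`; put `g m = g' (φ m)`, `s m = t (φ m)`. -/
def ZomStmt : Prop :=
  ∀ (n : ℕ) (C : Set (V n)) (Γ : Subgroup (GL (Fin n) ℝ)), CC C Γ →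
    ∀ p : ℕ → V n, (∀ m, p m ∈ C) → (∀ m, p m ∈ Hull C Γ) →
      ∃ (φ : ℕ → ℕ) (g : ℕ → GL (Fin n) ℝ) (s : ℕ → ℝ) (q : V n),
        StrictMono φ ∧ (∀ m, g m ∈ Γ) ∧ (∀ m, 0 < s m) ∧ q ∈ C ∧
        Tendsto (fun m => s m • act (g m) (p (φ m))) atTop (𝓝 q)

/-- **Row CLO.**  A nonzero limit, outside `C`, of elements of `Hull` lies in `LamC`.

Proof.  Let `c ∈ C ∩ Hull` (`CC.core`).  `y'_m = y_m + (1/(m+1)) c` lies in `C` (`PCone.cl_add'`
with `y_m ∈ closure C`) and in `Hull` (`HulFacts.add`, `smul`) and tends to `y0`, which lies in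
`closure C` (closed).  Zoom at `y'_m` (ZOM) and apply LIM0 to the subsequence `y' ∘ φ`. -/
def CloStmt : Prop :=
  ∀ (n : ℕ) (C : Set (V n)) (Γ : Subgroup (GL (Fin n) ℝ)), CC C Γ →
    ∀ (y : ℕ → V n) (y0 : V n), (∀ m, y m ∈ Hull C Γ) → Tendsto y atTop (𝓝 y0) →
      y0 ∉ C → y0 ≠ 0 → y0 ∈ LamC C Γ

/-- **Row FLM** (faces of limit points are in the limit set).  If `x ∈ LamC`, `0 ≠ y ∈ closure C`
and `y ≤ x` then `y ∈ LamC`.

Proof.  Step 1: assume in addition `ε x ≤ y`, `0 < ε ≤ 1`.  Let `c ∈ C ∩ Hull`,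
`h_m = x + c/(m+1)` (in `C ∩ Hull`) and `y_m = y + c/(m+1)`.  Then `ε h_m ≤ y_m ≤ h_m`.  Zoom at
`h_m`: `G_m h_{φ m} → k ∈ C`, `G_m = s_m g_m`.  `G_m y_{φ m} ≤ G_m h_{φ m}` is bounded
(`PCone.normal`), so on a further subsequence it converges to some `q` with `ε k ≤ q`, so `q ∈ C`
(`PCone.mem_of_le`).  `y ∉ C` (else `x ∈ C`, but `LamC` is disjoint from `C`).  LIM0 gives
`y ∈ LamC`.
Step 2: for `δ = 1/(j+1)` the vector `y + δ x` satisfies `δ x ≤ y + δ x ≤ (1 + δ) x`; Step 1 for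
`(1+δ)⁻¹ (y + δ x)` and `HulFacts.lamSmul` give `y + δ x ∈ LamC ⊆ Hull`; let `j → ∞` and use CLO
(`y ∉ C`, `y ≠ 0`). -/
def FlmStmt : Prop :=
  ∀ (n : ℕ) (C : Set (V n)) (Γ : Subgroup (GL (Fin n) ℝ)), CC C Γ →
    ∀ x ∈ LamC C Γ, ∀ y ∈ closure C, y ≠ 0 → x - y ∈ closure C → y ∈ LamC C Γ

/-! ## B. Properly embedded simplices -/

/-- **Row CRT.**  Criterion: `w_i ∈ closure C`, the total sum in `C`, every sum with one vector
omitted not in `C`; then `w` is a properly embedded simplex.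

Proof.  (pos) If all `c_i > 0`, let `m = min c_i > 0` (index type nonempty since `0 ∉ C`);
`∑ c_i w_i = m ∑ w_i + ∑ (c_i - m) w_i ∈ C` by `PCone.add_cl`, `cl_sum`, `cl_smul`.
(bd) If `c ≥ 0`, `c_i = 0` and `∑ c w ∈ C`, let `M > 0` with `M ≥ c_j` for all `j`; then
`M ∑_{j ≠ i} w_j = ∑ c_j w_j + ∑_{j ≠ i} (M - c_j) w_j ∈ C`, so `∑_{j ≠ i} w_j ∈ C`. -/
def CrtStmt : Prop :=
  ∀ (n : ℕ) (C : Set (V n)), PCone C → ∀ (ι : Type) [Fintype ι] [DecidableEq ι] (w : ι → V n),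
    (∀ i, w i ∈ closure C) → ∑ i, w i ∈ C →
    (∀ i, ∑ j ∈ Finset.univ.erase i, w j ∉ C) → PES C w

/-- **Row LIN.**  The vertices of a properly embedded simplex are linearly independent.

Proof.  Suppose `∑ a_i w_i = 0`, `a ≠ 0`; changing sign, some `a_i > 0`.  Let
`t = min {1 / a_i : a_i > 0}`, attained at `i0`.  Then `1 - t a_i ≥ 0` for all `i`, `= 0` at `i0`,
and `∑ (1 - t a_i) w_i = ∑ w_i ∈ C` by `PES.pos`, contradicting `PES.bd`. -/
def LinStmt : Prop :=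
  ∀ (n : ℕ) (C : Set (V n)), PCone C → ∀ (ι : Type) [Fintype ι] (w : ι → V n),
    PES C w → LinearIndependent ℝ w

/-- **Row FRZ.**  For linearly independent `w`, `PES` is the condition of the frozen statement.

Proof.  Since `w` is independent, `T c = ∑ c_i w_i` is an injective linear map from a
finite-dimensional space, hence a closed embedding (`LinearMap.isClosedEmbedding_of_injective` or
the version for continuous linear maps), so the image of the closed orthant `{c ≥ 0}` is closed and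
`closure (PosCone w) ⊆ {∑ c w : c ≥ 0}`; conversely every `∑ c w` with `c ≥ 0` is the limit of
`∑ (c_i + 1/(m+1)) w_i`.  (→) `pos` is the first inclusion; if `y = ∑ c w ∈ closure ∩ C` with
`c ≥ 0` then all `c_i > 0` by `bd`.  (←) if `c ≥ 0`, `c_i = 0`, `∑ c w ∈ C`, then it lies in the
closure and in `C`, so it is `∑ c' w` with `c' > 0`, and independence gives `c = c'`,
contradiction. -/
def FrzStmt : Prop :=
  ∀ (n : ℕ) (C : Set (V n)), PCone C → ∀ (ι : Type) [Fintype ι] (w : ι → V n),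
    LinearIndependent ℝ w →
    (PES C w ↔ (PosCone w ⊆ C ∧ closure (PosCone w) ∩ C ⊆ PosCone w))

/-- **Row ELM.**  Elementary invariances of `IsPES`.

Proof.  (1) positive rescaling of the vertices: reparametrise the coefficients.
(2) `G = s • act g` is linear and `G x ∈ C ↔ x ∈ C` (`CC.sact_mem_iff`); `LamC` is invariant
(`HulFacts.lamAct`, `lamSmul`).  (3) reindexing: `Equiv.sum_comp`.
(4) the index type is nonempty (else `pos` with the empty sum gives `0 ∈ C`), and a positive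
combination of elements of `Hull` is in `Hull` (induction on a nonempty finset). (5) `pt` is such a
combination. -/
def ElmStmt : Prop :=
  ∀ (n : ℕ) (C : Set (V n)) (Γ : Subgroup (GL (Fin n) ℝ)), CC C Γ →
    ∀ (ι : Type) [Fintype ι] (w : ι → V n), IsPES C Γ w →
      (∀ c : ι → ℝ, (∀ i, 0 < c i) → IsPES C Γ (fun i => c i • w i)) ∧
      (∀ g ∈ Γ, ∀ s : ℝ, 0 < s → IsPES C Γ (fun i => s • act g (w i))) ∧
      (∀ (κ : Type) [Fintype κ] (e : κ ≃ ι), IsPES C Γ (fun i => w (e i))) ∧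
      (∀ c : ι → ℝ, (∀ i, 0 < c i) → ∑ i, c i • w i ∈ Hull C Γ) ∧
      (∀ u : ι → ℤ, pt w u ∈ C ∧ pt w u ∈ Hull C Γ)

/-- **Row LIM.**  Let `x_m : ι → Hull`, `2 ≤ card ι`, `∑_i x_m i → p ∈ C`.  Then on a subsequence
`x_m i → w i` for all `i`, `∑ w = p`, and if in addition no sum of the `w_j` with one index omitted
is in `C`, then `w` is a properly embedded simplex with vertices in `LamC`.

Proof.  `0 ≤ x_m i ≤ ∑_j x_m j`, so by `PCone.normal` `‖x_m i‖ ≤ B ‖∑_j x_m j‖` is bounded; the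
sequence `x_m` in the finite-dimensional space `ι → V n` is bounded, take a convergent subsequence
(`tendsto_subseq_of_bounded`).  If the omit condition holds, CRT gives `PES`.  `w_i ≠ 0` (otherwise
`∑_{j≠i} w_j = p ∈ C`), `w_i ∉ C` (`PES.bd` for the coefficient vector `Pi.single i 1`, as there is
another index), so CLO gives `w_i ∈ LamC`. -/
def LimStmt : Prop :=
  ∀ (n : ℕ) (C : Set (V n)) (Γ : Subgroup (GL (Fin n) ℝ)), CC C Γ →
    ∀ (ι : Type) [Fintype ι] [DecidableEq ι], 2 ≤ Fintype.card ι →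
    ∀ (x : ℕ → ι → V n) (p : V n), (∀ m i, x m i ∈ Hull C Γ) → p ∈ C →
      Tendsto (fun m => ∑ i, x m i) atTop (𝓝 p) →
      ∃ (φ : ℕ → ℕ) (w : ι → V n), StrictMono φ ∧
        (∀ i, Tendsto (fun m => x (φ m) i) atTop (𝓝 (w i))) ∧ ∑ i, w i = p ∧
        ((∀ i, ∑ j ∈ Finset.univ.erase i, w j ∉ C) → IsPES C Γ w)

/-- **Row LPS.**  Compactness of properly embedded simplices: if every `x_m` is an `IsPES` and
`∑_i x_m i → p ∈ C` then a subsequence converges vertexwise to an `IsPES` `w` with `∑ w = p`.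

Proof.  Apply LIM (`LamC ⊆ Hull`).  Omit condition: if `∑_{j≠i} w_j ∈ C` then, `C` being open,
`∑_{j≠i} x_{φ m} j ∈ C` for large `m`, contradicting `PES.bd` (coefficients `1` off `i`, `0` at
`i`). -/
def LpsStmt : Prop :=
  ∀ (n : ℕ) (C : Set (V n)) (Γ : Subgroup (GL (Fin n) ℝ)), CC C Γ →
    ∀ (ι : Type) [Fintype ι] [DecidableEq ι], 2 ≤ Fintype.card ι →
    ∀ (x : ℕ → ι → V n) (p : V n), (∀ m, IsPES C Γ (x m)) → p ∈ C →
      Tendsto (fun m => ∑ i, x m i) atTop (𝓝 p) →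
      ∃ (φ : ℕ → ℕ) (w : ι → V n), StrictMono φ ∧
        (∀ i, Tendsto (fun m => x (φ m) i) atTop (𝓝 (w i))) ∧ ∑ i, w i = p ∧ IsPES C Γ w

/-! ## C. Zooming at a face, the structure of the faces of a top simplex -/

/-- **Row FZM** (zoom at a face).  Let `x ∈ LamC` with simplicial face `Face C x = PosCone y`
(`y : Fin r → V` independent), `b : Fin q → Hull`, `0 < q`, `x + ∑ b ∈ C` and
`x + ∑_{l ≠ j} b_l ∉ C` for all `j`.  Then there is an `IsPES` with `r + q` vertices.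

Proof.  `x ∈ Face C x` (take `ε = 1`, `zero_cl`), so `x = ∑ c_s y_s` with `c > 0`; replace `y_s` by
`c_s y_s` (same `PosCone`, still independent), so `x = ∑ y_s`.  `r ≥ 1` since `x ≠ 0`.
`y_s ∈ closure C` (limit of elements `∑_{s'} (if s' = s then 1 else δ) y_{s'}` of
`PosCone y = Face C x ⊆ closure C`), `y_s ≠ 0`, `x - y_s = ∑_{s' ≠ s} y_{s'} ∈ closure C`, so
`y_s ∈ LamC` by FLM.
Let `t_m = 1/(m+1)`, `p_m = x + t_m ∑ b`: in `Hull`, and in `C` because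
`p_m = t_m (x + ∑ b) + (1 - t_m) x`.  Zoom (ZOM): `G_m p_{φ m} → p ∈ C`, `G_m = s_m g_m`.  The
family `(G_m y_s)_s, (t_{φ m} G_m b_j)_j` indexed by `Fin r ⊕ Fin q` (`2 ≤ r + q`) has sum
`G_m p_{φ m}`, entries in `Hull`.  By LIM, on a subsequence it converges to `(Y_s), (B_j)`.
Omit condition.
(omit `B_j`) The sum is the limit of `G_m (x + t ∑_{l≠j} b_l)`.  If it were in `C`, then for large
`m` `x + t ∑_{l≠j} b_l ∈ C`, hence (`t ≤ 1`, `mem_of_le`) `x + ∑_{l≠j} b_l ∈ C`, contradiction.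
(omit `Y_s`) Suppose `a = ∑_{s'≠s} Y_{s'} + ∑ B_j ∈ C`.  Then `a - η Y_s ∈ C` for some `η > 0`
(`C` open), so for large `m` `x - y_s + t_m ∑ b - η y_s ∈ C`; `t_m → 0`:
`z := x - (1+η) y_s ∈ closure C`.  For every `μ > 0`, `x + μ z ∈ Face C x` (`x + μ z ≥ x`, and
`z ≤ x`, so `x + μ z ≤ (1+μ) x`), so `x + μ z = ∑ d_{s'} y_{s'}` with `d > 0`; but the coefficient
of `y_s` in `x + μ z` is `1 - μ η` (independence), `≤ 0` for `μ = 1/η`.  Contradiction.
So LIM gives an `IsPES` indexed by `Fin r ⊕ Fin q`; reindex by `finSumFinEquiv` (ELM). -/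
def FzmStmt : Prop :=
  ∀ (n : ℕ) (C : Set (V n)) (Γ : Subgroup (GL (Fin n) ℝ)), CC C Γ →
    ∀ (r q : ℕ) (x : V n) (y : Fin r → V n) (b : Fin q → V n),
      x ∈ LamC C Γ → LinearIndependent ℝ y → Face C x = PosCone y → 0 < q →
      (∀ j, b j ∈ Hull C Γ) → x + ∑ j, b j ∈ C →
      (∀ j, x + ∑ l ∈ Finset.univ.erase j, b l ∉ C) →
      ∃ w : Fin (r + q) → V n, IsPES C Γ w

/-- the faces of the simplex `w` are faces of the closed cone -/
def Star {n K : ℕ} (C : Set (V n)) (w : Fin K → V n) : Prop :=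
  ∀ I : Finset (Fin K), I ≠ Finset.univ → ∀ (β : ℝ) (y : V n), y ∈ closure C →
    (β • ∑ i ∈ I, w i) - y ∈ closure C →
    ∃ c : Fin K → ℝ, (∀ i, 0 ≤ c i) ∧ (∀ i, i ∉ I → c i = 0) ∧ y = ∑ i, c i • w i

/-- **Row STR.**  If all faces are simplicial and `K` is the maximal number of vertices, then every
`IsPES` `w` with `K` vertices satisfies `Star`.

Proof.  If `I = ∅` or `β ≤ 0` then `-y ∈ closure C`, so `y = 0` (salient), `c = 0`.  Let `I` be
nonempty, `β > 0`, `x = ∑_{i∈I} w_i`.  `x ∈ Hull`, `x ∉ C` (`bd`), `x ≠ 0`, so `x ∈ LamC` (CLO,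
constant sequence).  `Face C x = PosCone y'`, `y' : Fin r → V` independent.  FZM with `b` = the
family `(w_j)_{j∉I}` (`q = card Iᶜ`, indexed through `Finset.equivFin` or
`Finset.orderEmbOfFin`; `x + ∑ b = ∑ w ∈ C`, omitting `j`: `∑_{l≠j} w_l ∉ C` by `bd`) gives an
`IsPES` with `r + card Iᶜ` vertices, so `r + card Iᶜ ≤ K`, `r ≤ card I`.
For `i ∈ I`: `x ∈ Face`, `x + w_i ∈ Face C x` (`x ≤ x + w_i ≤ 2x`), so `w_i ∈ span y'`; the `w_i`,
`i ∈ I`, are independent (LIN), `card I ≥ r`, so `span {w_i : i ∈ I} = span (range y')`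
(`Submodule.eq_of_le_of_finrank_le`).
Claim: every `z ∈ Face C x` is `∑_{i∈I} a_i w_i` with `a_i > 0`.  `z ∈ PosCone y' ⊆ span y'`, so
`z = ∑_{i∈I} a_i w_i`.  Suppose some `a_i ≤ 0`.  Let `a_{i0}` be minimal, `a_{i0} ≤ 0`, and
`θ = 1 / (1 - a_{i0}) ∈ (0, 1]`; the point `v = (1-θ) x + θ z` has coefficients
`1 - θ + θ a_i ≥ 0`, `= 0` at `i0`.  `z ≥ ε x` gives `v ≥ ((1-θ) + θ ε) x ≥ ε' x`, `ε' > 0`.  Let
`A ≥` all coefficients of `v`, `A > 0`.  Then `A ∑_{i ∈ I, i≠i0} w_i ≥ v ≥ ε' x`.  Add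
`ε' ∑_{j∉I} w_j`: `A ∑_{I∖i0} w_i + ε' ∑_{I^c} w_j ≥ ε' ∑_{all} w ∈ C`, so the left side is in `C`,
contradicting `bd` (coefficient `0` at `i0`).
Finally let `y ∈ closure C`, `y ≤ β x`.  For every `μ > 0`, `x + μ y ∈ Face C x`, so
`x + μ y = ∑_I a_i w_i` with `a_i > 0`.  With `μ = 1`: `y = ∑_I (a_i - 1) w_i =: ∑_I c_i w_i`; for
all `μ > 0` by independence `1 + μ c_i > 0`, so `c_i ≥ 0`. -/
def StrStmt : Prop :=
  ∀ (n : ℕ) (C : Set (V n)) (Γ : Subgroup (GL (Fin n) ℝ)), CC C Γ → SimpFaces C Γ →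
    ∀ K : ℕ, MaxCard C Γ K → ∀ w : Fin K → V n, IsPES C Γ w → Star C w

/-- **Row MXI** (maximality in `Ω`).  A properly embedded simplex with `Star` is contained in no
larger properly embedded simplex of `Ω` (vertices anywhere in the boundary).

Proof.  `PosCone w ⊆ PosCone w'`.  `w'` is independent (LIN).  `w_i` is the limit of
`w_i + δ ∑_{l≠i} w_l ∈ PosCone w'`, and the set `{∑ c w' : c ≥ 0}` is closed (independence, see
FRZ), so `w_i = ∑_j c_{ij} w'_j` with `c_{ij} ≥ 0`.  `w'_j ∈ closure C`.  Since `w_i ≠ 0` some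
`c_{ij} > 0`; `c_{ij} w'_j ≤ w_i`, so by `Star` with `I = {i}` (`≠ univ` as `K ≥ 2`)
`c_{ij} w'_j = e w_i` with `e > 0`.  So `w_i = a_i w'_{σ i}`, `a_i > 0`.  `σ` is injective (`w`
independent).  If `σ` were not surjective, `∑ w_i = ∑ a_i w'_{σ i}` would be a combination of `w'`
with a zero coefficient, not in `C` by `bd`, contradicting `pos` for `w`.  So `σ` is bijective and
the two open cones are equal. -/
def MxiStmt : Prop :=
  ∀ (n : ℕ) (C : Set (V n)), PCone C → ∀ K : ℕ, 2 ≤ K → ∀ w : Fin K → V n, PES C w → Star C w →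
    ∀ (m : ℕ) (w' : Fin m → V n), PES C w' → PosCone w ⊆ PosCone w' → PosCone w' ⊆ PosCone w

/-! ## D. Nearness -/

/-- **Row NCL.**  Nearness passes to limits.

Proof.  Pass to a subsequence along which `Near C M (x m) (p m)` holds, with coefficients `c^m > 0`,
`p_m ≤ ∑ c^m_i x_{m,i} ≤ M p_m`.  `c^m_i x_{m,i} ≤ M p_m` and `PCone.normal`:
`c^m_i ‖x_{m,i}‖ ≤ B M ‖p_m‖` is bounded; `x_{m,i} → w_i ≠ 0` (LIN), so `c^m_i` is bounded.  Take a
convergent subsequence `c^m → c ≥ 0`.  In the limit `p0 ≤ ∑ c_i w_i ≤ M p0` (closure C closed).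
`∑ c w ≥ p0 ∈ C`, so it is in `C` and by `bd` all `c_i > 0`. -/
def NclStmt : Prop :=
  ∀ (n : ℕ) (C : Set (V n)), PCone C → ∀ (ι : Type) [Fintype ι]
    (x : ℕ → ι → V n) (w : ι → V n) (p : ℕ → V n) (p0 : V n) (M : ℝ),
    PES C w → (∀ m i, x m i ∈ closure C) →
    (∀ i, Tendsto (fun m => x m i) atTop (𝓝 (w i))) → p0 ∈ C → Tendsto p atTop (𝓝 p0) →
    (∃ᶠ m in atTop, Near C M (x m) (p m)) → Near C M w p0

/-- **Row NOP.**  Points converging to a point of the limit simplex become near.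

Proof.  `p0 = ∑ c_i w_i`, `c > 0`.  Let `1 < λ < M` and `q_m = ∑ (λ c_i) x_{m,i} → λ p0`.  Then
`q_m - p_m → (λ - 1) p0 ∈ C` and `M p_m - q_m → (M - λ) p0 ∈ C`; `C` is open, so eventually both are
in `C ⊆ closure C`. -/
def NopStmt : Prop :=
  ∀ (n : ℕ) (C : Set (V n)), PCone C → ∀ (ι : Type) [Fintype ι]
    (x : ℕ → ι → V n) (w : ι → V n) (p : ℕ → V n) (p0 : V n) (M : ℝ), 1 < M →
    p0 ∈ C → p0 ∈ PosCone w → (∀ i, Tendsto (fun m => x m i) atTop (𝓝 (w i))) →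
    Tendsto p atTop (𝓝 p0) → ∀ᶠ m in atTop, Near C M (x m) (p m)

/-- **Row NIN.**  Invariance of nearness: under `Γ` and scaling, under small changes of the point,
monotonicity in `M`, under `Same`.

Proof.  (1) apply `G = act g` and rescale the coefficients `c ↦ (t/s) c`; conversely use `g⁻¹`.
(2) `p ≤ p' ≤ 2p`, `p ≤ q ≤ M p`: then `p' ≤ 2p ≤ 2q ≤ 2 M p ≤ 2 M p'` (as `0 ≤ M`), so `2 q` works.
(3) `M p ≤ M' p`.  (4) `w_i = a_i w'_{σ i}`: reparametrise. -/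
def NinStmt : Prop :=
  ∀ (n : ℕ) (C : Set (V n)) (Γ : Subgroup (GL (Fin n) ℝ)), CC C Γ →
    ∀ (K : ℕ) (w : Fin K → V n) (p : V n) (M : ℝ),
      (∀ g ∈ Γ, ∀ s t : ℝ, 0 < s → 0 < t →
        (Near C M (fun i => s • act g (w i)) (t • act g p) ↔ Near C M w p)) ∧
      (∀ p' : V n, Near C M w p → p' - p ∈ closure C → (2 : ℝ) • p - p' ∈ closure C → 0 ≤ M →
        Near C (2 * M) w p') ∧
      (∀ M' : ℝ, M ≤ M' → p ∈ closure C → Near C M w p → Near C M' w p) ∧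
      (∀ w' : Fin K → V n, Same w w' → (Near C M w p ↔ Near C M w' p))

/-! ## E. The rigidity lemma (A) -/

/-- **Row A0.**  Let `w, w'` be properly embedded simplices with `Star`, `p_m = ∑ v_{m,i} w_i`
near `w'` (constant `M ≥ 1`) and `s_m p_m → x ∉ C`.  Every `w_i` with `w_i ≤ β x` is a positive
multiple of a vertex of `w'`.

Proof.  `p_m ≤ q_m ≤ M p_m`, `q_m = ∑ c^m_j w'_j`, `c^m_j > 0`.  `s_m c^m_j w'_j ≤ s_m q_m ≤
M s_m p_m → M x`, so `s_m c^m_j ‖w'_j‖` is bounded (`PCone.normal`), `w'_j ≠ 0` (LIN); on a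
subsequence `s_m c^m_j → c_j ≥ 0`; `q = ∑ c_j w'_j` satisfies `x ≤ q ≤ M x`.  `q ∉ C` (otherwise
`M x ∈ C`, so `x ∈ C`).  So `I' = {j : c_j > 0} ≠ univ` by `pos` for `w'`.  `w_i ≤ β x ≤ β q ≤
β' ∑_{I'} w'_j`.  `Star` for `w'`: `w_i = ∑ d_j w'_j`, `d ≥ 0`.  `w_i ≠ 0`, so `d_j > 0` for some
`j`; `d_j w'_j ≤ w_i`, so `Star` for `w` with `I = {i}` (`K ≥ 2`) gives `d_j w'_j = e w_i`, `e ≥ 0`,
`e ≠ 0` as `w'_j ≠ 0`.  So `w_i = (d_j / e) w'_j`. -/
def A0Stmt : Prop :=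
  ∀ (n : ℕ) (C : Set (V n)), PCone C → ∀ K : ℕ, 2 ≤ K → ∀ w w' : Fin K → V n,
    PES C w → PES C w' → Star C w → Star C w' →
    ∀ (v : ℕ → Fin K → ℝ) (s : ℕ → ℝ) (x : V n) (M : ℝ), 1 ≤ M → (∀ m, 0 < s m) →
      (∀ m, Near C M w' (∑ i, v m i • w i)) →
      Tendsto (fun m => s m • ∑ i, v m i • w i) atTop (𝓝 x) → x ∉ C →
      ∀ (i : Fin K) (β : ℝ), 0 < β → β • x - w i ∈ closure C →
        ∃ (j : Fin K) (c : ℝ), 0 < c ∧ w i = c • w' j

/-- **Row AAA** (rigidity).  If `J` is nonempty, `card Jᶜ ≥ 2` and all points `pt w u` with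
`u_i < u_j` for `i ∉ J`, `j ∈ J` are near `w'`, then the two simplices are the same.

Proof.  Let `i` be any index; let `i' = i` if `i ∉ J` and any `i' ∉ J` if `i ∈ J`.  Let
`u_N = N + 1` on `J`, `N` at `i'`, `0` at the other indices (they are outside `J`); these `u_N`
(`N ≥ 0`) are in the region.  `2^{-N} pt w u_N → 2 ∑_J w_l + w_{i'} =: x`, and `x ∉ C` by `bd`, as
some index is neither in `J` nor `i'`.  `w_i ≤ x`.  Row A0 gives `w_i = c_i w'_{σ i}` with `c_i > 0`.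
`σ` is injective because `w` is independent, so it is a permutation. -/
def AStmt : Prop :=
  ∀ (n : ℕ) (C : Set (V n)), PCone C → ∀ K : ℕ, 2 ≤ K → ∀ w w' : Fin K → V n,
    PES C w → PES C w' → Star C w → Star C w' →
    ∀ (J : Finset (Fin K)) (M : ℝ), 1 ≤ M → J.Nonempty → 2 ≤ (Jᶜ).card →
      (∀ u : Fin K → ℤ, (∀ i, i ∉ J → ∀ j, j ∈ J → u i < u j) → Near C M w' (pt w u)) →
      Same w w'

/-! ## F. Discreteness -/

/-- **Row GAP** (combinatorics).  Integer vectors with spread tending to infinity have, on a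
subsequence, a gap tending to infinity: `u_i - u_j → ∞` for `i ∉ J`, `j ∈ J`, with `J` and `Jᶜ`
nonempty.

Proof.  Claim: if `L ≥ 1` and some difference `u_a - u_b ≥ K L`, there is `J`, nonempty with
nonempty complement, with `u_i - u_j ≥ L` for `i ∉ J`, `j ∈ J`.  Let `μ = min u`,
`J_t = {j : u_j ≤ μ + t L}`, `t = 0, …, K-1`: nonempty, and proper as `max u ≥ μ + K L`.  The cards of
`J_0 ⊆ … ⊆ J_{K-1}` lie in `{1, …, K-1}`, so two consecutive ones are equal, `J_t = J_{t+1}`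
(for `K ≥ 2`; `K ≤ 1` is impossible as the spread is positive); `J = J_t` works.
For every `L` this holds for all large `m`; finitely many `J`; so some `J` occurs for infinitely many
`L ∈ ℕ` at arbitrarily large `m`; build `φ` recursively (or use
`Filter.Frequently` and `exists_seq_strictMono`/`Nat.exists_strictMono_subsequence`). -/
def GapStmt : Prop :=
  ∀ (K : ℕ) (u : ℕ → Fin K → ℤ),
    (∀ L : ℤ, ∀ᶠ m in atTop, ∃ i j, L ≤ u m i - u m j) →
    ∃ (φ : ℕ → ℕ) (J : Finset (Fin K)), StrictMono φ ∧ J.Nonempty ∧ (Jᶜ).Nonempty ∧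
      ∀ L : ℤ, ∀ᶠ m in atTop, ∀ i, i ∉ J → ∀ j, j ∈ J → L ≤ u (φ m) i - u (φ m) j

/-- **Row MIN.**  Let `x_m → w` be properly embedded simplices with `Star`, `x_m` never the same
simplex as `w`.  There are integer vectors `u_m` of minimal spread with `¬ Near 2 x_m (pt w u_m)`, and
the spread tends to infinity.  (That the spread of `v` is below that of `u` is written: there is `L` with all
differences of `v` at most `L` and some difference of `u` bigger than `L`.)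

Proof.  Fix `m`.  If all `pt w u` were `Near 2` to `x_m`, then AAA with `J = {0}` (`card Jᶜ = K-1 ≥ 2`)
would give `Same w x_m`.  So the set of bad `u` is nonempty; choose one with minimal spread
`max u - min u ∈ ℕ` (`Nat.find` or `WellFounded.min`).
Spread to infinity: fix `L`.  The set of `u` with `u_0 = 0` and `|u_i| ≤ L` is finite, and for each
such `u` NOP (`pt w u ∈ PosCone w`, `pt w u ∈ C`, constant `p`) gives `Near 2 x_m (pt w u)`
eventually; so eventually for all of them.  A general `u` of spread `≤ L` is such a vector plus a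
constant `a`, `pt w (u + a) = 2^a pt w u`, and `Near` is invariant under scaling of the point (scale
the coefficients).  So eventually every `u` of spread `≤ L` is near, and `u_m` has spread `> L`. -/
def MinStmt : Prop :=
  ∀ (n : ℕ) (C : Set (V n)), PCone C → ∀ K : ℕ, 3 ≤ K →
    ∀ (x : ℕ → Fin K → V n) (w : Fin K → V n),
      (∀ m, PES C (x m)) → (∀ m, Star C (x m)) → PES C w → Star C w →
      (∀ i, Tendsto (fun m => x m i) atTop (𝓝 (w i))) → (∀ m, ¬ Same w (x m)) →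
      ∃ u : ℕ → Fin K → ℤ,
        (∀ m, ¬ Near C 2 (x m) (pt w (u m))) ∧
        (∀ (m : ℕ) (v : Fin K → ℤ) (L : ℤ), (∀ i j, v i - v j ≤ L) →
          (∃ i j, L < u m i - u m j) → Near C 2 (x m) (pt w v)) ∧
        (∀ L : ℤ, ∀ᶠ m in atTop, ∃ i j, L ≤ u m i - u m j)

/-- **Row ZST** (the zoom step).  `w` and all `x_m` are `IsPES` with `K ≥ 2` vertices,
`pt w u_m` is `Near M₁` but not `Near M₂` to `x_m`.  Then on a subsequence `φ` the zoomed simplices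
converge to two different `IsPES` `W, W'`, and nearness passes to the limit in the coordinates
relative to `u_m`.

Proof.  `p_m = pt w u_m ∈ C ∩ Hull` (ELM).  Zoom (ZOM): `G_m p_{φ m} → p ∈ C`, `G_m = s_m g_m`.
The families `G_m (2^{u_m i} w_i)` are `IsPES` (ELM) with sum `G_m p_m → p`; LPS: on a subsequence
they converge to an `IsPES` `W`, `∑ W = p`.  Let `c^m > 0` be the coefficients of
`Near M₁ (x_m) (p_m)`: `p_m ≤ ∑ c^m_i x_{m,i} ≤ M₁ p_m`.  The family `G_m (c^m_i x_{m,i})` is `IsPES`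
with sum in the order interval `[G_m p_m, M₁ G_m p_m]`, bounded (`PCone.normal`); on a subsequence
the sum converges to some `Q ≥ p`, so `Q ∈ C`; LPS: on a subsequence the family converges to an
`IsPES` `W'`.
If `Same W W'`, then `p = ∑ W ∈ PosCone W'` and NOP gives `Near M₂ (G_m (c^m x_m)) (G_m p_m)` for
large `m`; by NIN (1), (4) `Near M₂ (x_m) (p_m)`, contradiction.
Let `v` be fixed and `Near M (x_m) (pt w (u_m + v))` for infinitely many `m` (of the subsequence).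
`G_m (pt w (u_m + v)) = ∑ 2^{v_i} G_m (2^{u_m i} w_i) → pt W v ∈ C`.  By NIN
`Near M (G_m (c^m x_m)) (G_m pt w (u_m+v))` for the same `m`, and NCL gives `Near M W' (pt W v)`. -/
def ZstStmt : Prop :=
  ∀ (n : ℕ) (C : Set (V n)) (Γ : Subgroup (GL (Fin n) ℝ)), CC C Γ → ∀ K : ℕ, 2 ≤ K →
    ∀ (w : Fin K → V n) (x : ℕ → Fin K → V n) (u : ℕ → Fin K → ℤ) (M₁ M₂ : ℝ), 1 < M₂ →
      IsPES C Γ w → (∀ m, IsPES C Γ (x m)) →
      (∀ m, Near C M₁ (x m) (pt w (u m))) → (∀ m, ¬ Near C M₂ (x m) (pt w (u m))) →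
      ∃ (φ : ℕ → ℕ) (W W' : Fin K → V n), StrictMono φ ∧ IsPES C Γ W ∧ IsPES C Γ W' ∧
        ¬ Same W W' ∧
        ∀ (v : Fin K → ℤ) (M : ℝ),
          (∃ᶠ m in atTop, Near C M (x (φ m)) (pt w (fun i => u (φ m) i + v i))) →
          Near C M W' (pt W v)

/-- **Row DS1.**  Failure of discreteness gives a pair of different simplices which are near in a
whole region `{v : v_i < v_j for all j ≠ i}`.

Proof.  STR gives `Star` for all `IsPES` with `K` vertices.  Let `u_m` be as in MIN.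
`u'_m = u_m - 1_{argmax}` (subtract `1` at all indices where `u_m` is maximal): if the spread of `u_m`
is `≥ 1` (true for large `m`), the spread of `u'_m` is smaller, so `Near 2 x_m (pt w u'_m)`;
`pt w u'_m ≤ pt w u_m ≤ 2 pt w u'_m`, so NIN (2) gives `Near 4 x_m (pt w u_m)`.  GAP: subsequence and
`J` with `u_i - u_j → ∞` for `i ∉ J`, `j ∈ J`.  Apply ZST (`M₁ = 4`, `M₂ = 2`) to the subsequence
(from the point on where the spread is `≥ 1`): `W, W'`.
Let `v` satisfy `v_i < v_j` for `i ∉ J`, `j ∈ J`.  For large `m` the spread of `u_m + v` is smaller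
than that of `u_m`: let `D` = spread of `u_m`, `g` = the gap, `ν ≥ |v_a - v_b|` for all `a, b`.  For
`a, b` on the same side of `J`, `u_a - u_b ≤ D - g`, so the difference of `u_m + v` is `≤ D - g + ν
≤ D - 1`; for `a ∈ J, b ∉ J` it is `≤ -g + ν ≤ D - 1`; for `a ∉ J`, `b ∈ J` it is
`≤ D + v_a - v_b ≤ D - 1`.  So MIN gives `Near 2 x_m (pt w (u_m + v))` for all large `m` and ZST
gives `Near 2 W' (pt W v)`.
If `card Jᶜ ≥ 2`, AAA gives `Same W W'`, contradiction.  So `Jᶜ = {i}`. -/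
def Ds1Stmt : Prop :=
  ∀ (n : ℕ) (C : Set (V n)) (Γ : Subgroup (GL (Fin n) ℝ)), CC C Γ → SimpFaces C Γ →
    ∀ K : ℕ, 3 ≤ K → MaxCard C Γ K → ∀ (x : ℕ → Fin K → V n) (w : Fin K → V n),
      (∀ m, IsPES C Γ (x m)) → IsPES C Γ w →
      (∀ i, Tendsto (fun m => x m i) atTop (𝓝 (w i))) → (∀ m, ¬ Same w (x m)) →
      ∃ (W W' : Fin K → V n) (i : Fin K), IsPES C Γ W ∧ IsPES C Γ W' ∧ ¬ Same W W' ∧
        (∀ v : Fin K → ℤ, (∀ j, j ≠ i → v i < v j) → Near C 2 W' (pt W v))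

/-- **Row SHR.**  Such a pair shares all vertices but one (after relabelling and rescaling).

Proof.  A0 with `v_N = 2^N` at `j ≠ i` and `1` at `i` (these are the points `pt w u`, `u = N` off
`i`, `0` at `i`, `N ≥ 1`), `s_N = 2^{-N}`, limit `x = ∑_{j≠i} w_j ∉ C`: every `w_j`, `j ≠ i`, is
`c_j w'_{σ j}`, `c_j > 0`.  `σ` is injective on `{j ≠ i}` (`w` independent); extend it to a permutation
of `Fin K`.  Let `W'_j = w_j` for `j ≠ i` and `W'_i = w'_{σ i}`.  `W'` is `IsPES` (ELM) and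
`Same w' W'`, so nearness is the same (NIN (4)).  If `W'_i = c w_i` with `c > 0` then `Same w W'`,
hence `Same w w'`, contradiction. -/
def ShrStmt : Prop :=
  ∀ (n : ℕ) (C : Set (V n)) (Γ : Subgroup (GL (Fin n) ℝ)), CC C Γ →
    ∀ K : ℕ, 3 ≤ K → ∀ (w w' : Fin K → V n) (i : Fin K), IsPES C Γ w → IsPES C Γ w' →
      Star C w → Star C w' → ¬ Same w w' →
      (∀ v : Fin K → ℤ, (∀ j, j ≠ i → v i < v j) → Near C 2 w' (pt w v)) →
      ∃ W' : Fin K → V n, IsPES C Γ W' ∧ (∀ j, j ≠ i → W' j = w j) ∧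
        (¬ ∃ c : ℝ, 0 < c ∧ W' i = c • w i) ∧
        (∀ v : Fin K → ℤ, (∀ j, j ≠ i → v i < v j) → Near C 2 W' (pt w v))

/-- **Row BBB.**  For such a pair, for `j ≠ i` and `M > 1` the point
`w_i + 2 ∑_{l≠i,j} w_l + 2^N w_j` is `Near M` to `w'` for all large `N`.

Proof.  Suppose not: `¬ Near M` for infinitely many `N`, say `N_m` (strictly increasing, `≥ 2`).
Apply ZST with `x_m = w'` constant, `u_m` = this exponent vector for `N_m` (it lies in the region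
`v_i < v_j`, so it is `Near 2`), `M₁ = 2`, `M₂ = M`.  We get `W, W'` with `¬ Same W W'`.  Let
`J = {i, j}ᶜ`, nonempty as `K ≥ 3`, `card Jᶜ = 2`.  Let `v` satisfy `v_a < v_b` for `a ∉ J`, `b ∈ J`.
For large `m` the vector `u_m + v` is in the region: at `l ∈ J`: `1 + v_l > v_i`; at `j`:
`N_m + v_j > v_i`.  So `Near 2 w' (pt w (u_m + v))` for all large `m`, and `Near 2 W' (pt W v)`.
AAA (with STR for `W`, `W'`) gives `Same W W'`, contradiction. -/
def BStmt : Prop :=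
  ∀ (n : ℕ) (C : Set (V n)) (Γ : Subgroup (GL (Fin n) ℝ)), CC C Γ → SimpFaces C Γ →
    ∀ K : ℕ, 3 ≤ K → MaxCard C Γ K → ∀ (w w' : Fin K → V n) (i : Fin K),
      IsPES C Γ w → IsPES C Γ w' →
      (∀ v : Fin K → ℤ, (∀ j, j ≠ i → v i < v j) → Near C 2 w' (pt w v)) →
      ∀ j, j ≠ i → ∀ M : ℝ, 1 < M → ∀ᶠ N : ℕ in atTop,
        Near C M w' (pt w (fun l => if l = i then 0 else if l = j then (N : ℤ) else 1))

/-- **Row FUN.**  Supporting functional of the facet opposite to the vertex `l`.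

Proof.  `z = ∑_{m≠l} w_m ∉ C` (`bd`).  `geometric_hahn_banach_open_point`: a continuous linear `f`
with `f x < f z` for all `x ∈ C`.  Put `φ = -f`: `φ x > φ z` on `C`.  Scaling `x` by `t → 0`:
`φ z ≤ 0`; `z ∈ closure C` and scaling by `t → ∞` shows `φ ≥ 0` on `C`, hence on `closure C`; so
`φ z = 0` and `φ > 0` on `C`.  `φ (w_m) ≥ 0` with sum `0` over `m ≠ l`, so all are `0`.
`φ (∑ w) > 0` gives `φ (w_l) > 0`. -/
def FunStmt : Prop :=
  ∀ (n : ℕ) (C : Set (V n)), PCone C → ∀ (ι : Type) [Fintype ι] [DecidableEq ι] (w : ι → V n)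
    (l : ι), PES C w → ∃ φ : (V n) →ₗ[ℝ] ℝ, (∀ x ∈ C, 0 < φ x) ∧ (∀ x ∈ closure C, 0 ≤ φ x) ∧
      (∀ m, m ≠ l → φ (w m) = 0) ∧ 0 < φ (w l)

/-- **Row CC1.**  In the situation of SHR and BBB, every supporting functional of a facet of `w`
opposite to `l ≠ i` vanishes on `w'_i`.

Proof.  Choose `j ∉ {i, l}` (`K ≥ 3`).  Let `φ'` be FUN for `(w', l)` and `φ_i` FUN for `(w, i)`.
Let `M > 1`; for a large `N` let `p = w_i + 2 ∑_{m≠i,j} w_m + 2^N w_j` and
`p ≤ q = ∑ c_m w'_m ≤ M p`, `c > 0`.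
`φ'`: `φ'(w'_m) = 0` for `m ≠ l`, `w_m = w'_m` for `m ≠ i`; `2 φ'(w_l) ≤ φ'(p) ≤ φ'(q) = c_l φ'(w'_l)`
and `w'_l = w_l`, `φ'(w_l) > 0`, so `c_l ≥ 2` (note `φ'(w_i) ≥ 0`).
`φ`: `φ(q) = c_i φ(w'_i) + c_l φ(w_l) ≤ M φ(p) = 2 M φ(w_l)`, so `c_i φ(w'_i) ≤ 2 (M-1) φ(w_l)`.
`φ_i`: `φ_i(w_i) = φ_i(p) ≤ φ_i(q) = c_i φ_i(w'_i)`, so `φ_i(w'_i) > 0` and
`c_i ≥ κ := φ_i(w_i) / φ_i(w'_i) > 0`, independent of `M`, `N`.
So `κ φ(w'_i) ≤ 2 (M-1) φ(w_l)` for all `M > 1`; hence `φ(w'_i) ≤ 0`, and `≥ 0` since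
`w'_i ∈ closure C` (limit of `PES.pos` combinations, or use `CrtStmt`-like argument). -/
def C1Stmt : Prop :=
  ∀ (n : ℕ) (C : Set (V n)), PCone C → ∀ K : ℕ, 3 ≤ K → ∀ (w w' : Fin K → V n) (i : Fin K),
    PES C w → PES C w' → (∀ j, j ≠ i → w' j = w j) →
    (∀ j, j ≠ i → ∀ M : ℝ, 1 < M → ∀ᶠ N : ℕ in atTop,
      Near C M w' (pt w (fun l => if l = i then 0 else if l = j then (N : ℤ) else 1))) →
    ∀ l, l ≠ i → ∀ φ : (V n) →ₗ[ℝ] ℝ, (∀ x ∈ C, 0 < φ x) → (∀ x ∈ closure C, 0 ≤ φ x) →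
      (∀ m, m ≠ l → φ (w m) = 0) → 0 < φ (w l) → φ (w' i) = 0

/-- **Row CC2.**  The conclusion of CC1 is contradictory.

Proof.  Fix `l ≠ i`, `z = ∑_{m≠l} w_m + w'_i`.  With `φ_l` from FUN: `φ_l(z) = 0`, so `z ∉ C`.
`z ∈ Hull`, `z ≠ 0` (sum of elements of `closure C`, not all zero; salient), so `z ∈ LamC` (CLO,
constant sequence).  SimpFaces: `Face C z = PosCone y`, `y : Fin r → V` independent.
`w'_i ∉ span {w_m : m ≠ l}`: if `w'_i = ∑_{m≠l} c_m w_m` then for `m ≠ i, l` the functional `φ_m`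
gives `0 = c_m φ_m(w_m)`, so `c_m = 0`; so `w'_i = c_i w_i`; `φ_i ≥ 0` gives `c_i ≥ 0`, and
`w'_i ≠ 0` gives `c_i > 0`, excluded.  So the `K` vectors `w_m` (`m ≠ l`), `w'_i` are independent.
Each of them, `v`, is in `span y`: `z, z + v ∈ Face C z` (`z ≤ z + v ≤ 2 z`).  So `K ≤ r`.
FZM with `q = 1`, `b = c ∈ C ∩ Hull` (`z + c ∈ C`, and `z + ∑_∅ = z ∉ C`) gives an `IsPES` with
`r + 1 > K` vertices, contradicting `MaxCard`. -/
def C2Stmt : Prop :=
  ∀ (n : ℕ) (C : Set (V n)) (Γ : Subgroup (GL (Fin n) ℝ)), CC C Γ → SimpFaces C Γ →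
    ∀ K : ℕ, 3 ≤ K → MaxCard C Γ K → ∀ (w w' : Fin K → V n) (i : Fin K),
      IsPES C Γ w → IsPES C Γ w' → (∀ j, j ≠ i → w' j = w j) →
      (¬ ∃ c : ℝ, 0 < c ∧ w' i = c • w i) →
      ¬ (∀ l, l ≠ i → ∀ φ : (V n) →ₗ[ℝ] ℝ, (∀ x ∈ C, 0 < φ x) → (∀ x ∈ closure C, 0 ≤ φ x) →
          (∀ m, m ≠ l → φ (w m) = 0) → 0 < φ (w l) → φ (w' i) = 0)

/-- **Row DSC** (discreteness, assembly of DS1, SHR, BBB, CC1, CC2, STR).  The family of top
properly embedded simplices is discrete.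

Proof.  If not, `¬ Same w (x m)` for infinitely many `m`; pass to the subsequence
(`Filter.extraction_of_frequently_atTop`); DS1 gives `W, W', i`; SHR (with STR) gives `W''`; BBB for
`(W, W'')`; CC1; CC2 is the contradiction. -/
def DscStmt : Prop :=
  ∀ (n : ℕ) (C : Set (V n)) (Γ : Subgroup (GL (Fin n) ℝ)), CC C Γ → SimpFaces C Γ →
    ∀ K : ℕ, 3 ≤ K → MaxCard C Γ K → ∀ (x : ℕ → Fin K → V n) (w : Fin K → V n),
      (∀ m, IsPES C Γ (x m)) → IsPES C Γ w →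
      (∀ i, Tendsto (fun m => x m i) atTop (𝓝 (w i))) → ∀ᶠ m in atTop, Same w (x m)

/-! ## G. Periodicity and the subgroup -/

/-- **Row PER.**  If the family of `IsPES` with `K` vertices is discrete, then for every `ℓ ≠ 0` with
`∑ ℓ_i = 0` some `γ ∈ Γ` acts diagonally on `w` with `∑ ℓ_i χ_i ≠ 0`.

Proof.  `p_m = ∑ exp(m ℓ_i) w_i ∈ C ∩ Hull` (ELM).  Zoom: `G_m p_{φ m} → p ∈ C`, `G_m = s_m g_m`;
`x_m = (G_m (exp(φ(m) ℓ_i) w_i))_i` is `IsPES` with sum `→ p`; LPS: on a subsequence `x_m → W`,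
`IsPES`.  Discreteness: `Same W (x_m)` for large `m`, with permutations `σ_m`; on a further
subsequence `σ_m = σ` is constant: `W_i = c_{m,i} x_{m,σ i}`.  `x_{m,σ i} → W_{σ i}`, so
`W_i` and `W_{σ i}` are proportional (norms: `c_{m,i} = ‖W_i‖/‖x_{m,σ i}‖` converges), so `σ i = i` by
independence (LIN).  So `x_{m,i} = τ_{m,i} W_i` with `τ_{m,i} > 0`, `τ_{m,i} → 1`, that is
`g_m w_i = s_m⁻¹ exp(-φ(m) ℓ_i) τ_{m,i} W_i`.  For `m0` fixed large and `γ = g_{m0}⁻¹ g_m ∈ Γ`: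
`γ w_i = exp(χ_i) w_i`, `χ_i = -(φ m - φ m0) ℓ_i + log τ_{m,i} - log τ_{m0,i} + const`.  As
`∑ ℓ_i = 0`, `∑ ℓ_i χ_i = -(φ m - φ m0) ∑ ℓ_i² + bounded`, which is `≠ 0` for `m` large. -/
def PerStmt : Prop :=
  ∀ (n : ℕ) (C : Set (V n)) (Γ : Subgroup (GL (Fin n) ℝ)), CC C Γ → ∀ K : ℕ, 2 ≤ K →
    (∀ (x : ℕ → Fin K → V n) (W : Fin K → V n), (∀ m, IsPES C Γ (x m)) → IsPES C Γ W →
      (∀ i, Tendsto (fun m => x m i) atTop (𝓝 (W i))) → ∀ᶠ m in atTop, Same W (x m)) →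
    ∀ w : Fin K → V n, IsPES C Γ w → ∀ ℓ : Fin K → ℝ, ℓ ≠ 0 → ∑ i, ℓ i = 0 →
      ∃ γ ∈ Γ, ∃ χ : Fin K → ℝ, (∀ i, act γ (w i) = Real.exp (χ i) • w i) ∧
        ∑ i, ℓ i * χ i ≠ 0

/-- **Row CHI** (linear algebra).  If no nonzero `ℓ` with `∑ ℓ = 0` is orthogonal to all of `X`,
then `X` contains `K` linearly independent vectors of `ℝ^{K+1}`.

Proof.  Take a maximal linearly independent subset `b` of `X` (`exists_linearIndependent`), so
`span X = span b`.  If `card b < K`, then `span (b ∪ {1})` has dimension `< K + 1`, so there is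
`ℓ ≠ 0` orthogonal to `b` and to `1 = (1, …, 1)` (dimension count; the dot product is nondegenerate),
hence to `X`, contradiction.  So `card b ≥ K`; choose `K` of them. -/
def ChiStmt : Prop :=
  ∀ (K : ℕ) (X : Set (Fin (K + 1) → ℝ)),
    (∀ ℓ : Fin (K + 1) → ℝ, ℓ ≠ 0 → ∑ i, ℓ i = 0 → ∃ χ ∈ X, ∑ i, ℓ i * χ i ≠ 0) →
    ∃ χ : Fin K → (Fin (K + 1) → ℝ), (∀ a, χ a ∈ X) ∧ LinearIndependent ℝ χ

/-- **Row NFN** (finite stabilisers).  The stabiliser in `Γ` of a ray of `C` is finite.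

Proof.  Let `γ ∈ Γ`, `γ p = c p`, `c > 0`, and `A = c⁻¹ γ` (so `A p = p`, `A` preserves `C`).  By
`PCone.absorb` applied to `± e_i` (finitely many) there is `β > 0` with `-β p ≤ e_i ≤ β p` for all
basis vectors; `A` preserves the order, so `-β p ≤ A e_i ≤ β p`, and `PCone.normal` bounds
`‖A e_i‖` by a constant `B'` independent of `γ`.  So all entries of `A` are bounded by `B'`.
`|det γ| = 1`, so `|det A| = c^{-n}`; the same bound holds for all powers `A^m`, `m ∈ ℤ` (they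
fix `p` and preserve `C`), so `|det A^m| = c^{-nm}` is bounded for all `m ∈ ℤ`, so `c = 1` (if
`n ≥ 1`; for `n = 0` the group is trivial).  Hence all entries of `γ` and of `γ⁻¹` are bounded by
`B'`.  The set of such elements of `GL_n(ℝ)` is compact (embed by `g ↦ (g, g⁻¹)`, `Units.embedProduct`
is a closed embedding), and `Γ` is discrete, hence closed (`Subgroup.isClosed_of_discrete`), so the
intersection is compact and discrete, hence finite. -/
def NfnStmt : Prop :=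
  ∀ (n : ℕ) (C : Set (V n)) (Γ : Subgroup (GL (Fin n) ℝ)), CC C Γ → ∀ p ∈ C,
    {γ : GL (Fin n) ℝ | γ ∈ Γ ∧ ∃ c : ℝ, 0 < c ∧ act γ p = c • p}.Finite

/-- **Row COM** (group theory).  If all `a_i^m a_j a_i^{-m} a_j⁻¹` (`m ∈ ℕ`) lie in a finite set,
then some positive power makes the `a_i` commute pairwise.

Proof.  Fix `i, j`.  By pigeonhole there are `m1 < m2` with
`a_i^{m1} a_j a_i^{-m1} = a_i^{m2} a_j a_i^{-m2}`, so `a_i^{m2-m1}` commutes with `a_j`; put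
`r_{ij} = m2 - m1` and `r = ∏_{i,j} r_{ij}`: `a_i^r` commutes with `a_j`, hence with `a_j^r`. -/
def ComStmt : Prop :=
  ∀ (G : Type) [Group G] (N : Set G), N.Finite → ∀ (k : ℕ) (a : Fin k → G),
    (∀ (i j : Fin k) (m : ℕ), a i ^ m * a j * (a i ^ m)⁻¹ * (a j)⁻¹ ∈ N) →
    ∃ r : ℕ, 0 < r ∧ ∀ i j, Commute (a i ^ r) (a j ^ r)

/-- **Row HOM** (group theory).  Commuting elements define a homomorphism from `ℤ^k`.

Proof.  `f z = ∏_i b_i^{z_i}` (`MonoidHom.noncommPiCoprod`, or `zpowersHom` in the commutative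
subgroup `Subgroup.closure (range b)`, or induction on `k`). -/
def HomStmt : Prop :=
  ∀ (G : Type) [Group G] (k : ℕ) (b : Fin k → G), (∀ i j, Commute (b i) (b j)) →
    ∃ f : Multiplicative (Fin k → ℤ) →* G,
      ∀ i, f (Multiplicative.ofAdd (Pi.single i 1)) = b i

/-- **Row ABE.**  Diagonal elements with linearly independent characters give a subgroup
isomorphic to `ℤ^k` preserving the simplex.

Proof.  Let `N = {γ ∈ Γ : γ p ∈ ℝ_{>0} p}`, `p = ∑ w_i ∈ C`: finite by NFN.  For products of the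
`γ_a^{±1}` the characters add, so `γ_a^m γ_b γ_a^{-m} γ_b⁻¹` fixes every `w_i`, hence `p`, and is in
`N`.  COM: `r > 0` with `b_a = γ_a^r` pairwise commuting.  HOM: `f : ℤ^k → GL`, image in `Γ`
(the `ofAdd (Pi.single i 1)` generate).  `f z` acts on `w_i` by `exp (r ∑_a z_a χ_{a,i})` (the set of
`z` for which this holds is a subgroup containing the generators).  `f` is injective:
`f z = 1` gives `r ∑_a z_a χ_a = 0` (`w_i ≠ 0`, LIN), so `z = 0` by independence.  `A = f.range`;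
`A ≃ Multiplicative (Fin k → ℤ)` (`MonoidHom.ofInjective`, symm).  `f z` maps `∑ c_i w_i` to
`∑ c_i exp(..) w_i ∈ PosCone w`. -/
def AbeStmt : Prop :=
  ∀ (n : ℕ) (C : Set (V n)) (Γ : Subgroup (GL (Fin n) ℝ)), CC C Γ →
    ∀ (k : ℕ) (w : Fin (k + 1) → V n), IsPES C Γ w →
      ∀ (γ : Fin k → GL (Fin n) ℝ) (χ : Fin k → (Fin (k + 1) → ℝ)), (∀ a, γ a ∈ Γ) →
        (∀ a i, act (γ a) (w i) = Real.exp (χ a i) • w i) → LinearIndependent ℝ χ →
        ∃ A : Subgroup (GL (Fin n) ℝ), A ≤ Γ ∧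
          Nonempty (↥A ≃* Multiplicative (Fin k → ℤ)) ∧
          ∀ a ∈ A, ∀ y ∈ PosCone w, act a y ∈ PosCone w

/-- **Row MXK.**  The maximal number of vertices exists.

Proof.  By LIN every `IsPES` with `m` vertices has `m ≤ n`
(`LinearIndependent.fintype_card_le_finrank`); take the largest `m ≤ n` for which one exists
(`Nat.findGreatest`); `m ≥ 3`; `k = m - 1`. -/
def MxkStmt : Prop :=
  ∀ (n : ℕ) (C : Set (V n)) (Γ : Subgroup (GL (Fin n) ℝ)), CC C Γ →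
    (∃ w : Fin 3 → V n, IsPES C Γ w) →
    ∃ k : ℕ, 2 ≤ k ∧ (∃ w : Fin (k + 1) → V n, IsPES C Γ w) ∧ MaxCard C Γ (k + 1)

/-- **Row FIN** (final assembly, conclusion literally as in S14139, for EVERY top simplex). -/
def FinStmt : Prop :=
  ∀ (n : ℕ) (C : Set (V n)) (Γ : Subgroup (GL (Fin n) ℝ)), CC C Γ → SimpFaces C Γ →
    (∃ w : Fin 3 → V n, IsPES C Γ w) →
    ∃ k : ℕ, 2 ≤ k ∧ (∃ w : Fin (k + 1) → V n, IsPES C Γ w) ∧
      ∀ v : Fin (k + 1) → V n, IsPES C Γ v → LinearIndependent ℝ v ∧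
      {y : V n | ∃ c : Fin (k + 1) → ℝ, (∀ i, 0 < c i) ∧ y = ∑ i, c i • v i} ⊆ C ∧
      closure {y : V n | ∃ c : Fin (k + 1) → ℝ, (∀ i, 0 < c i) ∧ y = ∑ i, c i • v i} ∩ C
        ⊆ {y : V n | ∃ c : Fin (k + 1) → ℝ, (∀ i, 0 < c i) ∧ y = ∑ i, c i • v i} ∧
      (∀ (m : ℕ) (w : Fin (m + 1) → V n), LinearIndependent ℝ w →
        {y : V n | ∃ c : Fin (m + 1) → ℝ, (∀ i, 0 < c i) ∧ y = ∑ i, c i • w i} ⊆ C →
        closure {y : V n | ∃ c : Fin (m + 1) → ℝ, (∀ i, 0 < c i) ∧ y = ∑ i, c i • w i} ∩ C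
          ⊆ {y : V n | ∃ c : Fin (m + 1) → ℝ, (∀ i, 0 < c i) ∧ y = ∑ i, c i • w i} →
        {y : V n | ∃ c : Fin (k + 1) → ℝ, (∀ i, 0 < c i) ∧ y = ∑ i, c i • v i}
          ⊆ {y : V n | ∃ c : Fin (m + 1) → ℝ, (∀ i, 0 < c i) ∧ y = ∑ i, c i • w i} →
        {y : V n | ∃ c : Fin (m + 1) → ℝ, (∀ i, 0 < c i) ∧ y = ∑ i, c i • w i}
          ⊆ {y : V n | ∃ c : Fin (k + 1) → ℝ, (∀ i, 0 < c i) ∧ y = ∑ i, c i • v i}) ∧
      ∃ A : Subgroup (GL (Fin n) ℝ), A ≤ Γ ∧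
        Nonempty (↥A ≃* Multiplicative (Fin k → ℤ)) ∧
        ∀ a ∈ A, ∀ y ∈ {y : V n | ∃ c : Fin (k + 1) → ℝ, (∀ i, 0 < c i) ∧ y = ∑ i, c i • v i},
          (a : Matrix (Fin n) (Fin n) ℝ) *ᵥ y ∈
            {y : V n | ∃ c : Fin (k + 1) → ℝ, (∀ i, 0 < c i) ∧ y = ∑ i, c i • v i}

end Pool.Agent.PFS
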