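import Pool.Agent.PFS.Stmts

/-!
# PFS squad (MP_e54c4c_gt): HYPERBOLICITY HALF (helper87), statements with complete proofs in words

Theorem (row HYP).  If `Γ` acts convex cocompactly on the domain of `C` and there is no properly
embedded triangle with vertices in the limit cone, then `Γ` is word hyperbolic, literally in the
form of S14139 (finite generating set `S`, four point condition for the word metric).
No assumption on the faces.  Together with FIN this gives the final theorem with literally the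
hypothesis `¬ (word hyperbolic)` of the frozen statement.

`Cmp C M p q` means that the Hilbert distance of `p, q ∈ C` is at most `log M`.
`Seg p q` is the segment (as a cone).
Plan: fat triangles zoom to a properly embedded triangle (THN, TRI); then the guessing geodesics
lemma (GH1 - GH4, GHL: pure graph theory) is applied to the Cayley graph with the sets
`{g : g o is near the segment from x o to y o}`.
-/

set_option autoImplicit false

open Matrix Filter Topology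

namespace Pool.Agent.PFS

/-- Hilbert distance at most `log M` -/
def Cmp {n : ℕ} (C : Set (V n)) (M : ℝ) (p q : V n) : Prop :=
  ∃ t : ℝ, 0 < t ∧ t • p - q ∈ closure C ∧ M • q - t • p ∈ closure C

/-- the segment between two points, as a cone without `0` -/
def Seg {n : ℕ} (p q : V n) : Set (V n) :=
  {y | ∃ a b : ℝ, 0 ≤ a ∧ 0 ≤ b ∧ 0 < a + b ∧ y = a • p + b • q}

/-- the graph of S14139 -/
abbrev Cay {G : Type} [Group G] (S : Finset G) : SimpleGraph G :=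
  SimpleGraph.fromRel fun a b : G => a⁻¹ * b ∈ S

/-! ## H. Comparison -/

/-- **Row CMF** (basic facts on `Cmp`).

Proof.  (1) symmetry: `q ≤ t p ≤ M q` gives `p ≤ (M/t) q ≤ M p` (`M > 0`: if `M ≤ 0` then
`M q - t p ∈ closure C` and `(-M) q + t p ∈ C` contradict: their sum is `0`, salient, `ne_zero`).
(2) `q ≤ t p ≤ M q`, `r ≤ s q ≤ M' r`: `r ≤ s t p ≤ M s q ≤ M M' r`.
(3) monotone: `(M' - M) q ∈ closure C`.  (4) apply `act g` (linear, preserves `closure C`,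
`CC.act_cl_iff`), scalings change `t`.
(5) `p ∈ closure C`, `q ∈ C`: `1 ≤ M` gives `Cmp M q q` with `t = 1`.
(6) if `q ≤ t p ≤ M q` and `y = a p + b q`, then `(a/t + b) q ≤ y ≤ (M a/t + b) q ≤ M (a/t+b) q`
(`M ≥ 1` because `q ≤ M q`, `q ∈ C`: `(M-1) q ∈ closure C` forces `M ≥ 1`, else `-q ∈ closure C`
by scaling and `q = 0`, salient).  So `Cmp C M y q` with scaling `1/(a/t+b)`. -/
def CmfStmt : Prop :=
  ∀ (n : ℕ) (C : Set (V n)) (Γ : Subgroup (GL (Fin n) ℝ)), CC C Γ →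
    (∀ M p q, p ∈ C → q ∈ C → Cmp C M p q → Cmp C M q p) ∧
    (∀ M M' p q r, 0 ≤ M → 0 ≤ M' → p ∈ C → q ∈ C → r ∈ C → Cmp C M p q → Cmp C M' q r →
      Cmp C (M * M') p r) ∧
    (∀ M M' p q, M ≤ M' → q ∈ C → Cmp C M p q → Cmp C M' p q) ∧
    (∀ M p q, ∀ g ∈ Γ, (Cmp C M (act g p) (act g q) ↔ Cmp C M p q)) ∧
    (∀ (M a b : ℝ) (p q : V n), 0 < a → 0 < b → (Cmp C M (a • p) (b • q) ↔ Cmp C M p q)) ∧
    (∀ M p, 1 ≤ M → p ∈ C → Cmp C M p p) ∧
    (∀ M p q, p ∈ C → q ∈ C → Cmp C M p q → 1 ≤ M) ∧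
    (∀ M p q, p ∈ C → q ∈ C → Cmp C M p q → ∀ y ∈ Seg p q, y ∈ C ∧ Cmp C M y q ∧ Cmp C M y p)

/-- **Row CMC** (convergent sequences are comparable).

Proof.  `PCone.absorb`: `M₁ q - p ∈ C` and `M₂ p - q ∈ C`; by openness and convergence, for all
large `m` `M₁ q_m - p_m ∈ C`, `M₂ p_m - q_m ∈ C`; so `q_m ≤ M₂ p_m ≤ M₁ M₂ q_m`: `M = M₁ M₂`. -/
def CmcStmt : Prop :=
  ∀ (n : ℕ) (C : Set (V n)), PCone C → ∀ (p q : ℕ → V n) (p0 q0 : V n), p0 ∈ C → q0 ∈ C →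
    Tendsto p atTop (𝓝 p0) → Tendsto q atTop (𝓝 q0) →
    ∃ M : ℝ, 1 ≤ M ∧ ∀ᶠ m in atTop, Cmp C M (p m) (q m)

/-- **Row COV** (the orbit of `o` is cobounded in the core).

Proof.  `CC.cocompact`: compact `K ⊆ C`.  Claim: there is `M₀` with `Cmp C M₀ k o` for all `k ∈ K`:
for each `k ∈ K` absorb gives `M₁ o - k ∈ C`, `M₂ k - o ∈ C`, and these hold on an open
neighbourhood of `k` (with the same constants); finite subcover (or: otherwise a sequence
`k_m ∈ K` with `¬ Cmp C m (k_m) o` has a convergent subsequence, CMC).  For `p` in the core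
`t • act g p ∈ K`, so `Cmp C M₀ (t • act g p) o`; CMF (4), (5): `Cmp C M₀ p (act g⁻¹ o)`. -/
def CovStmt : Prop :=
  ∀ (n : ℕ) (C : Set (V n)) (Γ : Subgroup (GL (Fin n) ℝ)), CC C Γ → ∀ o ∈ C,
    ∃ M₀ : ℝ, 1 ≤ M₀ ∧ ∀ p ∈ C, p ∈ Hull C Γ → ∃ g ∈ Γ, Cmp C M₀ p (act g o)

/-- **Row PRP** (properness).

Proof.  (Like NFN.)  Let `o ≤ t g o ≤ M o`.  By `PCone.absorb` there is `β > 0` with
`-β o ≤ e_i ≤ β o` for all basis vectors; so `-β M o ≤ (t g) e_i ≤ β M o` (`t g` preserves the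
order and `t g o ≤ M o`) and by `PCone.normal` the entries of `A = t g` are bounded by `B'`
(depending only on `M`).  The same for `A⁻¹`: `A⁻¹ o ≤ o` and `o ≤ M A⁻¹ o`.. from `o ≤ A o` apply
`A⁻¹`: `A⁻¹ o ≤ o`, so the entries of `A⁻¹` are bounded too.  `|det A| = t^n`, so `t^n` and
`t^{-n}` are bounded, hence (n ≥ 1; for `n = 0` the group is trivial, finite) `t ∈ [b⁻¹, b]` and
the entries of `g`, `g⁻¹` are bounded.  Such a set of elements of `GL_n(ℝ)` is relatively compact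
and `Γ` is discrete, hence closed, so it is finite (see NFN, whose proof can be reused). -/
def PrpStmt : Prop :=
  ∀ (n : ℕ) (C : Set (V n)) (Γ : Subgroup (GL (Fin n) ℝ)), CC C Γ → ∀ o ∈ C, ∀ M : ℝ,
    {γ : GL (Fin n) ℝ | γ ∈ Γ ∧ Cmp C M (act γ o) o}.Finite

/-- **Row SGC** (chains in segments).

Proof.  `absorb`: `q ≤ M p`, `p ≤ M q`, `M > 0`.  Choose `N ≥ 1` with `2^N ≥ M`.  Chain:
`c_0 = p`, `c_i = p + 2^{i - 1 - N} q` for `1 ≤ i ≤ 2N + 1`, `c_{2N+2} = q`.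
`p ≤ p + 2^{-N} q ≤ 2 p`; `p + s q ≤ p + 2 s q ≤ 2 (p + s q)`;
`2^{-N} (p + 2^N q) = q + 2^{-N} p` and `q ≤ q + 2^{-N} p ≤ 2 q`.  (`t` in `Cmp` chosen
accordingly, all points are in `C`.) -/
def SgcStmt : Prop :=
  ∀ (n : ℕ) (C : Set (V n)), PCone C → ∀ p ∈ C, ∀ q ∈ C,
    ∃ (N : ℕ) (c : ℕ → V n), c 0 = p ∧ c N = q ∧ (∀ i ≤ N, c i ∈ Seg p q) ∧
      (∀ i < N, Cmp C 2 (c i) (c (i + 1)))

/-! ## T. Thin triangles -/

/-- **Row TRI** (half triangle gives a properly embedded triangle).  `p, q, r ∈ LamC`,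
`p + q ∈ C`, `p + r ∉ C`, `q + r ∉ C`: there is an `IsPES` with three vertices.

Proof.  `r ≠ c p` for all `c` (`c > 0`: `q + r = q + c p ∈ C` because
`q + c p ≥ min(c,1) (p + q)`; `c < 0`: salient; `c = 0`: `r ≠ 0`).  Likewise `p ≠ c r`.
Let `ε₀ = max {ε ≥ 0 : r - ε p ∈ closure C}` and `ε₁ = max {ε ≥ 0 : p - ε r ∈ closure C}` (closed
sets containing `0`, bounded by `normal`: `ε ‖p‖ ≤ B ‖r‖`).  Put `r' = r - ε₀ p`, `p' = p - ε₁ r`.
They are `≠ 0`, in `closure C`, `r' ≤ r`, `p' ≤ p`, so `r', p' ∈ LamC` (FLM).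
`ε₀ ε₁ < 1`: `p ≥ ε₁ r ≥ ε₁ ε₀ p` gives `ε₀ ε₁ ≤ 1` (else `-p ∈ closure C`), and `ε₀ ε₁ = 1` gives
`p - ε₁ r ∈ closure C` and `-(p - ε₁ r) = ε₁ (r - ε₀ p) ∈ closure C`, so `p = ε₁ r`, excluded.
`p = (p' + ε₁ r') / (1 - ε₀ ε₁)` (as `p' + ε₁ r' = p - ε₁ ε₀ p`), so with `m := p' + r'`:
`p ≤ κ m` for some `κ > 0`, hence `m + q ≥ min(1, 1/κ) (p + q) ∈ C`: `m + q ∈ C` (and also
`m + η q ∈ C` for `η > 0`).  `m ≤ p + r ∉ C`, so `m ∉ C`.
Zoom (ZOM) at `x_N = m + 2^{-N} q ∈ C ∩ Hull`: `G_N x_{φ N} → x ∈ C`, `G_N = s_N g_N`.  LIM for the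
family `(G_N p', G_N r', 2^{-φ N} G_N q)` indexed by `Fin 3`: subsequence, limits `P, R, Q` with sum
`x ∈ C`.  Omit conditions: `P + R` is a limit of `G_N m ∉ C`, and the complement of `C` is closed.
`R + Q`: if it were in `C` (open), then `R + Q - η P ∈ C` for some `η > 0`, so for large `N`
`r' + 2^{-φ N} q - η p' ∈ C`, and `N → ∞`: `r' - η p' ∈ closure C`.  But
`r' - η p' = (1 + η ε₁) r - (ε₀ + η) p`, so by maximality of `ε₀` (and scaling)
`(ε₀ + η) / (1 + η ε₁) ≤ ε₀`, i.e. `1 ≤ ε₀ ε₁`, contradiction.  `P + Q`: the same with the roles of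
`p` and `r` exchanged (`p' - η r' = (1 + η ε₀) p - (ε₁ + η) r`, same contradiction).  So LIM gives
`IsPES`. -/
def TriStmt : Prop :=
  ∀ (n : ℕ) (C : Set (V n)) (Γ : Subgroup (GL (Fin n) ℝ)), CC C Γ →
    ∀ p ∈ LamC C Γ, ∀ q ∈ LamC C Γ, ∀ r ∈ LamC C Γ, p + q ∈ C → p + r ∉ C → q + r ∉ C →
      ∃ w : Fin 3 → V n, IsPES C Γ w

/-- **Row THN** (thin triangles).  If there is no `IsPES` with three vertices, triangles of the
core are thin.

Proof.  Suppose not.  For every `m` there are `p_m, q_m, r_m` in the core and `x_m ∈ Seg p_m q_m`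
such that no `y ∈ Seg p_m r_m ∪ Seg r_m q_m` satisfies `Cmp C (m+1) x_m y`.
`x_m = a p_m + b q_m`; `a, b > 0` (if `b = 0`, `y = p_m ∈ Seg p_m r_m` has `Cmp C 1 x_m y`, CMF; if
`a = 0`, `y = q_m`).  Replacing `p_m`, `q_m` by `a p_m`, `b q_m` (same segments) we may assume
`x_m = p_m + q_m`.  Zoom at `x_m` (ZOM), and replace `p, q, r, x` by their images under `G_m`
(subsequence): `x_m → x ∈ C`, everything still in `C ∩ Hull` and the non-comparability is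
preserved (CMF (4), (5)).  Scale `r_m` so that `‖r_m‖ = 1` (`‖r_m‖⁻¹ r_m`).  By `normal` `p_m`,
`q_m` are bounded; on a subsequence `p_m → p`, `q_m → q`, `r_m → r`, `p + q = x ∈ C`, `‖r‖ = 1`.
Claim: `a p + b r ∉ C` for all `a, b ≥ 0` with `a + b > 0`: otherwise `y_m = a p_m + b r_m → y ∈ C`
and CMC gives `M` with `Cmp C M x_m y_m` for all large `m`, contradiction for `m + 1 ≥ M`.
Likewise `a q + b r ∉ C`.  So `p, q, r ∉ C`; `p ≠ 0` (otherwise `q = x ∈ C`), `q ≠ 0`, `r ≠ 0`.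
CLO: `p, q, r ∈ LamC`.  `p + q ∈ C`, `p + r ∉ C`, `q + r ∉ C`.  TRI: contradiction. -/
def ThnStmt : Prop :=
  ∀ (n : ℕ) (C : Set (V n)) (Γ : Subgroup (GL (Fin n) ℝ)), CC C Γ →
    (¬ ∃ w : Fin 3 → V n, IsPES C Γ w) →
    ∃ M : ℝ, 1 ≤ M ∧ ∀ p ∈ C, p ∈ Hull C Γ → ∀ q ∈ C, q ∈ Hull C Γ → ∀ r ∈ C, r ∈ Hull C Γ →
      ∀ x ∈ Seg p q, ∃ y ∈ Seg p r ∪ Seg r q, Cmp C M x y

/-! ## G. Guessing geodesics (graph theory only) -/

/-- hypotheses of the guessing geodesics lemma -/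
structure Guess {X : Type} (G : SimpleGraph X) (L : X → X → Set X) (h : ℕ) : Prop where
  conn : G.Connected
  chain : ∀ x y : X, ∃ (N : ℕ) (c : ℕ → X), c 0 = x ∧ c N = y ∧ (∀ i ≤ N, c i ∈ L x y) ∧
    ∀ i < N, G.dist (c i) (c (i + 1)) ≤ h
  near : ∀ x y : X, G.dist x y ≤ 1 → ∀ u ∈ L x y, G.dist x u ≤ h
  thin : ∀ x y z : X, ∀ u ∈ L x y, ∃ v ∈ L x z ∪ L z y, G.dist u v ≤ h

/-- `c : ℕ → X` restricted to `[0, N]` is a geodesic -/
def Geo {X : Type} (G : SimpleGraph X) (N : ℕ) (c : ℕ → X) : Prop :=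
  ∀ i j : ℕ, i ≤ j → j ≤ N → G.dist (c i) (c j) = j - i

/-- **Row GEO** (geodesics exist).

Proof.  `G.Connected` gives a walk of length `G.dist x y`
(`SimpleGraph.Connected.exists_walk_length_eq_dist`); `c i = walk.getVert i`.
`dist (c i) (c j) ≤ j - i` for `i ≤ j ≤ N` (consecutive vertices are adjacent, triangle
inequality `SimpleGraph.Connected.dist_triangle`, induction on `j`), and
`N = dist (c 0) (c N) ≤ dist (c 0) (c i) + dist (c i) (c j) + dist (c j) (c N)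
≤ i + dist (c i) (c j) + (N - j)`. -/
def GeoStmt : Prop :=
  ∀ (X : Type) (G : SimpleGraph X), G.Connected → ∀ x y : X,
    ∃ c : ℕ → X, c 0 = x ∧ c (G.dist x y) = y ∧ Geo G (G.dist x y) c

/-- **Row GH1** (logarithmic bound).  Let `c` be a sequence with steps of distance `≤ 1` on
`[a, b]`, `b - a ≤ 2^k`.  Every `u ∈ L (c a) (c b)` is within `h (k + 1)` of some `c i`,
`a ≤ i ≤ b`.

Proof.  Induction on `k`.  `k = 0`: `dist (c a) (c b) ≤ 1`, so `near` gives `dist (c a) u ≤ h`.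
Step: let `e` be the midpoint, `e - a ≤ 2^k`, `b - e ≤ 2^k`, `a ≤ e ≤ b` (e.g. `e = (a+b)/2`).
`thin` with `z = c e`: `v ∈ L (c a) (c e) ∪ L (c e) (c b)` with `dist u v ≤ h`; induction for `v`. -/
def Gh1Stmt : Prop :=
  ∀ (X : Type) (G : SimpleGraph X) (L : X → X → Set X) (h : ℕ), Guess G L h →
    ∀ (k : ℕ) (c : ℕ → X) (a b : ℕ), a ≤ b → b - a ≤ 2 ^ k →
      (∀ i, a ≤ i → i < b → G.dist (c i) (c (i + 1)) ≤ 1) →
      ∀ u ∈ L (c a) (c b), ∃ i, a ≤ i ∧ i ≤ b ∧ G.dist u (c i) ≤ h * (k + 1)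

/-- **Row NUM** (numerics).  For every `h` there is `D₀` such that: if `D ≤ h (k + 3)` for every
`k` with `4 D + 4 h + 2 ≤ 2^k`, then `D ≤ D₀`.

Proof.  Let `k` be minimal with `4D + 4h + 2 ≤ 2^k` (`k ≥ 1`), so `2^{k-1} < 4D + 4h + 2 ≤
4 h (k+3) + 4h + 2`.  As `2^{k-1} / k → ∞`, `k ≤ k₀(h)` (for example from `2^j ≥ j^2` for `j ≥ 4`:
`(k-1)^2 ≤ 4hk + 16h + 2` gives `k ≤ 4h + 20h + 10`); `D₀ = h (k₀ + 3)`. -/
def NumStmt : Prop :=
  ∀ h : ℕ, ∃ D₀ : ℕ, ∀ D : ℕ, (∀ k : ℕ, 4 * D + 4 * h + 2 ≤ 2 ^ k → D ≤ h * (k + 3)) → D ≤ D₀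

/-- **Row GH2** (the sets `L` are near geodesics).

Proof.  `D₀` from NUM.  Fix the geodesic `c` on `[0, N]`.  Consider the set of all `D` such that
there are `a ≤ b ≤ N` and `u ∈ L (c a) (c b)` with `D ≤ dist u (c i)` for all `a ≤ i ≤ b`.  It is
bounded by GH1 (`N ≤ 2^N`), and contains `0` (`L` is nonempty by `chain`); let `D` be its maximum,
attained by `a, b, u`; let `p ∈ [a, b]` with `dist u (c p) = D` (take `p` minimising
`dist u (c i)` on `[a, b]`; by maximality the minimum is exactly `D`).  By maximality of `D` every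
`v ∈ L (c a') (c b')`, `a' ≤ b' ≤ N`, satisfies `dist v (c i) ≤ D` for some `i ∈ [a', b']`.
Let `ℓ = 2D + 2h + 1`, `a' = max a (p - ℓ)`, `b' = min b (p + ℓ)`.  `thin` with `z = c a'` and then
with `z = c b'`: there is `v` with `dist u v ≤ 2h` and `v ∈ L (c a) (c a')` or
`v ∈ L (c a') (c b')` or `v ∈ L (c b') (c b)`.
Case 1, `v ∈ L (c a) (c a')`.  If `a' = a`: `near` gives `dist (c a) v ≤ h`, so `D ≤ 3h`.  If
`a' = p - ℓ > a`: `v` is within `D` of `c i`, `i ≤ a' = p - ℓ`; so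
`ℓ ≤ p - i = dist (c i) (c p) ≤ D + 2h + D < ℓ`, contradiction.
Case 3 is symmetric (for `b' = b`, `L (c b) (c b)`: `near`).
Case 2: let `2ℓ ≤ 2^k`; `b' - a' ≤ 2ℓ ≤ 2^k`, GH1: `dist v (c i) ≤ h (k+1)`, so
`D ≤ h (k + 3)`.  In all cases `D ≤ h (k + 3)` for all `k` with `4D + 4h + 2 ≤ 2^k`.  NUM. -/
def Gh2Stmt : Prop :=
  ∀ h : ℕ, ∃ D₀ : ℕ, ∀ (X : Type) (G : SimpleGraph X) (L : X → X → Set X), Guess G L h →
    ∀ (N : ℕ) (c : ℕ → X), Geo G N c → ∀ u ∈ L (c 0) (c N), ∃ i ≤ N, G.dist u (c i) ≤ D₀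

/-- **Row GH3** (geodesics are near the sets `L`).

Proof.  `D₀` from GH2; `D₁ = 3 D₀ + 2 h`.  Let `e : ℕ → X` be the chain of `L (c 0) (c N)` with
`e 0 = c 0`, `e M = c N`.  Let `p ≤ N`.  For each `j ≤ M` GH2 gives `i_j ≤ N` with
`dist (e j) (c i_j) ≤ D₀`; choose `i_0 = 0`, `i_M = N`.  There is `j < M` with
`i_j ≤ p ≤ i_{j+1}` (or `M = 0`, then `N = 0 = p`, fine; take the last `j` with `i_j ≤ p`; if it is
`M`, then `p = N` and `e M = c N` is at distance `0`).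
`i_{j+1} - i_j = dist (c i_j) (c i_{j+1}) ≤ 2 D₀ + h`, so `dist (c p) (c i_j) ≤ 2D₀ + h` and
`dist (c p) (e j) ≤ 3 D₀ + h`. -/
def Gh3Stmt : Prop :=
  ∀ h : ℕ, ∃ D₁ : ℕ, ∀ (X : Type) (G : SimpleGraph X) (L : X → X → Set X), Guess G L h →
    ∀ (N : ℕ) (c : ℕ → X), Geo G N c → ∀ p ≤ N, ∃ u ∈ L (c 0) (c N), G.dist (c p) u ≤ D₁

/-- **Row GH4** (slim triangles imply the four point condition).

Proof.  Let `c` be a geodesic from `x` to `y`, `N = dist x y`.  Claim: for every `z` there is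
`p ≤ N` with `dist x z ≥ p + dist (c p) z - 4(D+1)` and
`dist z y ≥ dist z (c p) + (N - p) - 4(D+1)`.  Proof: take geodesics `e` from `x` to `z` and `f` from
`z` to `y`.  Every `c i` is within `D` of some `e j` or some `f j`.  `c 0 = x = e 0`, `c N = y = f(..)`.
Let `p` be the largest `i ≤ N` such that `c i` is within `D` of the geodesic `e`; if `p = N` then
`c p = y` is near both; otherwise `c (p+1)` is within `D` of `f`, so `c p` is within `D + 1` of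
both `e` and `f`.  If `dist (c p) (e j) ≤ D + 1` then
`dist x z = dist x (e j) + dist (e j) z ≥ dist x (c p) + dist (c p) z - 2 (D+1)`, and the same for `f`.
Now let `p` belong to `z` and `q` to `w`.  If `p ≤ q`:
`dist x w + dist y z ≥ q + dist (c q) w + dist z (c p) + (N - p) - 8(D+1)` and
`q + (N - p) = N + (q - p) = N + dist (c p) (c q)`, and
`dist z (c p) + dist (c p) (c q) + dist (c q) w ≥ dist z w`.  So
`dist x y + dist z w ≤ dist x w + dist y z + 8 (D+1)`.  If `q ≤ p` exchange `z` and `w`: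
`dist x y + dist z w ≤ dist x z + dist y w + 8 (D+1)`.  `δ = 4 (D + 1)`. -/
def Gh4Stmt : Prop :=
  ∀ (X : Type) (G : SimpleGraph X) (D : ℕ), G.Connected →
    (∀ (x y z : X) (N N₁ N₂ : ℕ) (c e f : ℕ → X), Geo G N c → Geo G N₁ e → Geo G N₂ f →
      c 0 = x → c N = y → e 0 = x → e N₁ = z → f 0 = z → f N₂ = y →
      ∀ p ≤ N, (∃ j ≤ N₁, G.dist (c p) (e j) ≤ D) ∨ (∃ j ≤ N₂, G.dist (c p) (f j) ≤ D)) →
    ∀ x y z w : X, G.dist x y + G.dist z w
      ≤ max (G.dist x z + G.dist y w) (G.dist x w + G.dist y z) + 2 * (4 * (D + 1))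

/-- **Row GHL** (guessing geodesics lemma; assembly of GEO, GH2, GH3, GH4).

Proof.  GH3: a point `c p` of a geodesic from `x` to `y` is within `D₁` of some `u ∈ L x y`; `thin`:
`v ∈ L x z ∪ L z y` within `h` of `u`; GH2: `v` is within `D₀` of the geodesic `e` (or `f`).  So the
hypothesis of GH4 holds with `D = D₁ + h + D₀`. -/
def GhlStmt : Prop :=
  ∀ h : ℕ, ∃ δ : ℕ, ∀ (X : Type) (G : SimpleGraph X) (L : X → X → Set X), Guess G L h →
    ∀ x y z w : X, G.dist x y + G.dist z w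
      ≤ max (G.dist x z + G.dist y w) (G.dist x w + G.dist y z) + 2 * δ

/-! ## W. The Cayley graph -/

/-- **Row CAY** (connected Cayley graphs; bounded distance from a finite set).

Proof.  (1) If `S` generates `G`, then `Cay S` is connected: the set of `g` reachable from `1`
is closed under right multiplication by `s` and `s⁻¹`, `s ∈ S` (`a` and `a s` are equal or
adjacent: `a⁻¹ (a s) = s ∈ S`), and `Subgroup.closure_induction_right` or: for fixed `a`,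
`{g | Reachable a (a g)}` contains a subgroup containing `S`.  (2) left multiplication is a graph
automorphism: `a⁻¹ b = (g a)⁻¹ (g b)`, so `dist (g a) (g b) = dist a b`; hence for a finite set
`T ⊆ G` the number `h = max_{t ∈ T} dist 1 t` satisfies `dist a b ≤ h` whenever `a⁻¹ b ∈ T`. -/
def CayStmt : Prop :=
  ∀ (G : Type) [Group G] (S : Finset G), Subgroup.closure (S : Set G) = ⊤ →
    (Cay S).Connected ∧
    ∀ T : Set G, T.Finite → ∃ h : ℕ, ∀ a b : G, a⁻¹ * b ∈ T → (Cay S).dist a b ≤ h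

/-- **Row GEN** (a finite generating set).  `o` in the core, `M₀` from COV: the finite set
`S = {g ∈ Γ : Cmp C (2 M₀²) (g o) o}` generates `Γ`, and for all `x, y ∈ Γ` there is a chain
`c_0 = x, …, c_N = y` of elements of `Γ` such that every `c_i o` is `M₀`-comparable to a point of
`Seg (x o) (y o)` and `Cmp C (2 M₀²) (c_i o) (c_{i+1} o)`.

Proof.  SGC gives points `z_i ∈ Seg (x o) (y o)`, all in the core (`HulFacts.act`, `add`, `smul`, for
`a = 0` or `b = 0` directly).  COV: `c_i ∈ Γ` with `Cmp C M₀ z_i (c_i o)`; take `c_0 = x`, `c_N = y`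
(`Cmp C M₀ z_0 (x o)` by CMF (6)).  CMF: `Cmp C (M₀ * 2 * M₀) (c_i o) (c_{i+1} o)`.
`S` is finite by PRP (as a `Finset` of the subtype `↥Γ`: the map `↥Γ → GL` is injective).
Generation: for `g ∈ Γ` take the chain from `1` to `g`: `c_i⁻¹ c_{i+1} ∈ S⁻¹`… precisely
`Cmp C (2M₀²) (c_i⁻¹ c_{i+1} o) o` (CMF (1), (4)), so `c_i⁻¹ c_{i+1} ∈ S` and by induction
`c_i ∈ Subgroup.closure S`. -/
def GenStmt : Prop :=
  ∀ (n : ℕ) (C : Set (V n)) (Γ : Subgroup (GL (Fin n) ℝ)), CC C Γ → ∀ o ∈ C, o ∈ Hull C Γ →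
    ∀ M₀ : ℝ, 1 ≤ M₀ → (∀ p ∈ C, p ∈ Hull C Γ → ∃ g ∈ Γ, Cmp C M₀ p (act g o)) →
    (∃ S : Finset ↥Γ, (∀ g : ↥Γ, g ∈ S ↔ Cmp C (2 * M₀ ^ 2) (act (g : GL (Fin n) ℝ) o) o) ∧
      Subgroup.closure (S : Set ↥Γ) = ⊤) ∧
    ∀ x y : ↥Γ, ∃ (N : ℕ) (c : ℕ → ↥Γ), c 0 = x ∧ c N = y ∧
      (∀ i ≤ N, ∃ z ∈ Seg (act (x : GL (Fin n) ℝ) o) (act (y : GL (Fin n) ℝ) o),
        Cmp C M₀ (act (c i : GL (Fin n) ℝ) o) z) ∧
      (∀ i < N, Cmp C (2 * M₀ ^ 2) (act (c i : GL (Fin n) ℝ) o) (act (c (i + 1) : GL (Fin n) ℝ) o))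

/-- **Row HYP** (assembly: no triangle implies word hyperbolic; the conclusion is literally the
negated hypothesis of S14139).

Proof.  `o` in the core (`CC.core`), `M₀` (COV), `S` (GEN), `M_T` (THN).  `L x y = {γ ∈ Γ : γ o is
M₀-comparable to a point of Seg (x o) (y o)}`.  For each `M` the set
`{g : Cmp C M (g o) o}` is finite (PRP), so by CAY there is `h(M)` with `dist a b ≤ h(M)` whenever
`Cmp C M (a o) (b o)` (CMF (1), (4)).  `Guess` with `h = max` of `h` for the four values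
`2 M₀²` (chain), `M₀ · 2 M₀²` (near: `dist x y ≤ 1` means `x = y` or adjacent, so
`Cmp C (2 M₀²) (x o) (y o)`, CMF (8): a point `z` of the segment is `2M₀²`-comparable to `x o`),
`M₀ · M_T · M₀` (thin: `u o ~ z ∈ Seg (x o) (y o)`, THN: `y' ∈ Seg (x o) (z o) ∪ Seg (z o) (y o)`, COV:
`v ∈ Γ` with `v o ~ y'`).  GHL. -/
def HypStmt : Prop :=
  ∀ (n : ℕ) (C : Set (V n)) (Γ : Subgroup (GL (Fin n) ℝ)), CC C Γ →
    (¬ ∃ w : Fin 3 → V n, IsPES C Γ w) →
    ∃ S : Finset ↥Γ, Subgroup.closure (S : Set ↥Γ) = ⊤ ∧ ∃ δ : ℕ,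
        ∀ x y z w : ↥Γ,
          (SimpleGraph.fromRel fun a b : ↥Γ => a⁻¹ * b ∈ S).dist x y
            + (SimpleGraph.fromRel fun a b : ↥Γ => a⁻¹ * b ∈ S).dist z w
          ≤ max ((SimpleGraph.fromRel fun a b : ↥Γ => a⁻¹ * b ∈ S).dist x z
                  + (SimpleGraph.fromRel fun a b : ↥Γ => a⁻¹ * b ∈ S).dist y w)
                ((SimpleGraph.fromRel fun a b : ↥Γ => a⁻¹ * b ∈ S).dist x w
                  + (SimpleGraph.fromRel fun a b : ↥Γ => a⁻¹ * b ∈ S).dist y z)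
            + 2 * δ

end Pool.Agent.PFS
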